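import Mathlib

set_option autoImplicit false

/-! FIB (MP_36674f_nt): distance to the nearest integer as the norm of `UnitAddCircle`. -/

namespace Pool.Agent.FIB

/-- distance to the nearest integer -/
noncomputable def nn (x : ℝ) : ℝ := ‖(x : UnitAddCircle)‖

theorem nn_nonneg (x : ℝ) : 0 ≤ nn x := norm_nonneg _

theorem nn_eq (x : ℝ) : nn x = |x - round x| := UnitAddCircle.norm_eq

theorem nn_le_half (x : ℝ) : nn x ≤ 1 / 2 := by
  rw [nn_eq]; exact abs_sub_round x

theorem nn_add (x y : ℝ) : nn (x + y) ≤ nn x + nn y := by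
  unfold nn
  rw [AddCircle.coe_add]; exact norm_add_le _ _

theorem nn_neg (x : ℝ) : nn (-x) = nn x := by
  unfold nn
  rw [AddCircle.coe_neg, norm_neg]

theorem nn_sub (x y : ℝ) : nn (x - y) ≤ nn x + nn y := by
  rw [sub_eq_add_neg]
  refine (nn_add _ _).trans ?_
  rw [nn_neg]

theorem coe_int (z : ℤ) : ((z : ℝ) : UnitAddCircle) = 0 := by
  rw [AddCircle.coe_eq_zero_iff]
  exact ⟨z, by simp⟩

theorem nn_add_int (x : ℝ) (z : ℤ) : nn (x + z) = nn x := by
  unfold nn
  rw [AddCircle.coe_add, coe_int, add_zero]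

theorem nn_sub_int (x : ℝ) (z : ℤ) : nn (x - z) = nn x := by
  have := nn_add_int x (-z)
  push_cast at this
  rwa [← sub_eq_add_neg] at this

theorem nn_le_abs (x : ℝ) : nn x ≤ |x| := by
  rw [nn_eq]
  have := round_le x 0
  simpa using this

theorem nn_le_abs_sub_int (x : ℝ) (z : ℤ) : nn x ≤ |x - z| := by
  rw [← nn_sub_int x z]; exact nn_le_abs _

theorem exists_int (x : ℝ) : ∃ z : ℤ, nn x = |x - z| := ⟨round x, nn_eq x⟩

theorem nn_nat_mul (n : ℕ) (x : ℝ) : nn (n * x) ≤ n * nn x := by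
  obtain ⟨z, hz⟩ := exists_int x
  have h := nn_le_abs_sub_int (n * x) (n * z)
  rw [hz]
  refine h.trans (le_of_eq ?_)
  push_cast
  rw [← mul_sub, abs_mul, Nat.abs_cast]

theorem nn_int_mul (n : ℤ) (x : ℝ) : nn (n * x) ≤ |(n : ℝ)| * nn x := by
  obtain ⟨z, hz⟩ := exists_int x
  have h := nn_le_abs_sub_int (n * x) (n * z)
  rw [hz]
  refine h.trans (le_of_eq ?_)
  push_cast
  rw [← mul_sub, abs_mul]

theorem nn_eq_self {x : ℝ} (h : |x| ≤ 1 / 2) : nn x = |x| := by
  unfold nn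
  rw [AddCircle.norm_coe_eq_abs_iff (p := (1 : ℝ)) (by norm_num)]
  simpa using h

/-- if `t ≤ y ≤ 1 - t` then `t ≤ ‖y‖` -/
theorem le_nn {t y : ℝ} (h1 : t ≤ y) (h2 : y ≤ 1 - t) : t ≤ nn y := by
  obtain ⟨z, hz⟩ := exists_int y
  rw [hz]
  rcases le_or_gt z 0 with h | h
  · have : (z : ℝ) ≤ 0 := by exact_mod_cast h
    rw [le_abs]; left; linarith
  · have : (1 : ℝ) ≤ z := by exact_mod_cast h
    rw [le_abs]; right; linarith

/-- coprimality: if `k v` and `h v` are both small then `v` is close to an integer -/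
theorem nn_coprime {h k : ℕ} (hh : 0 < h) (hk : Nat.Coprime h k) (v x y : ℝ)
    (hx : nn (h * v) < x) (hy : nn (k * v) < y) (hxy : k * x + h * y ≤ 1) :
    nn v ≤ nn (h * v) / h := by
  obtain ⟨p, hp⟩ := exists_int (h * v)
  obtain ⟨q, hq⟩ := exists_int (k * v)
  have hh' : (0 : ℝ) < h := by exact_mod_cast hh
  have h1 : |(k : ℝ) * p - h * q| < 1 := by
    have e : (k : ℝ) * p - h * q = h * (k * v - q) - k * (h * v - p) := by ring
    rw [e]
    calc |(h : ℝ) * (k * v - q) - k * (h * v - p)|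
        ≤ |(h : ℝ) * (k * v - q)| + |k * (h * v - p)| := abs_sub _ _
      _ = h * |k * v - q| + k * |h * v - p| := by
          rw [abs_mul, abs_mul, Nat.abs_cast, Nat.abs_cast]
      _ < 1 := by
          rw [← hp, ← hq]
          have a1 : (h : ℝ) * nn (k * v) < h * y := by
            exact mul_lt_mul_of_pos_left hy hh'
          have a2 : (k : ℝ) * nn (h * v) ≤ k * x :=
            mul_le_mul_of_nonneg_left hx.le (Nat.cast_nonneg _)
          linarith
  have h2 : (k : ℤ) * p - h * q = 0 := by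
    have : |((k : ℤ) * p - h * q : ℤ)| < 1 := by
      have : |(((k : ℤ) * p - h * q : ℤ) : ℝ)| < 1 := by push_cast; exact h1
      exact_mod_cast this
    exact Int.abs_lt_one_iff.mp this
  have h3 : (h : ℤ) ∣ p := by
    have : (h : ℤ) ∣ k * p := ⟨q, by linarith⟩
    exact (Nat.isCoprime_iff_coprime.mpr hk).dvd_of_dvd_mul_left this
  obtain ⟨s, hs⟩ := h3
  have h4 : nn v ≤ |v - s| := nn_le_abs_sub_int v s
  refine h4.trans ?_
  rw [hp, hs, le_div_iff₀ hh']
  push_cast
  rw [show (h : ℝ) * v - h * s = (v - s) * h by ring, abs_mul, Nat.abs_cast]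

end Pool.Agent.FIB
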