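import Mathlib
import Pool.Agent.FIB.Basic

set_option autoImplicit false

/-! FIB (MP_36674f_nt): an almost integral linear form forces an empty box. -/

namespace Pool.Agent.FIB

open Finset

/-- number of `n < N` with `({nα}, {nβ})` in `[0,a) × [0,b)` -/
noncomputable def boxCount (α β : ℝ) (N : ℕ) (a b : ℝ) : ℕ :=
  ((Finset.range N).filter
    (fun n : ℕ => Int.fract ((n : ℝ) * α) < a ∧ Int.fract ((n : ℝ) * β) < b)).card

theorem boxCount_eq (α β : ℝ) (N : ℕ) (a b : ℝ) : (boxCount α β N a b : ℝ) =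
    ∑ n ∈ Finset.range N, (if Int.fract ((n : ℝ) * α) < a then (1 : ℝ) else 0) *
      (if Int.fract ((n : ℝ) * β) < b then 1 else 0) := by
  unfold boxCount
  rw [Finset.card_filter]
  push_cast
  refine Finset.sum_congr rfl fun n _ => ?_
  by_cases h1 : Int.fract ((n : ℝ) * α) < a <;> by_cases h2 : Int.fract ((n : ℝ) * β) < b <;>
    simp [h1, h2]

/-- if no point lies in `[x1,x2) × [y1,y2)` some anchored box has large error -/
theorem of_empty_box (α β : ℝ) (N : ℕ) (x1 x2 y1 y2 : ℝ) (hx1 : 0 ≤ x1) (hx : x1 ≤ x2)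
    (hx2 : x2 ≤ 1) (hy1 : 0 ≤ y1) (hy : y1 ≤ y2) (hy2 : y2 ≤ 1)
    (hemp : ∀ n < N, ¬ (x1 ≤ Int.fract ((n : ℝ) * α) ∧ Int.fract ((n : ℝ) * α) < x2 ∧
      y1 ≤ Int.fract ((n : ℝ) * β) ∧ Int.fract ((n : ℝ) * β) < y2)) :
    ∃ a b : ℝ, 0 ≤ a ∧ a ≤ 1 ∧ 0 ≤ b ∧ b ≤ 1 ∧
      N * ((x2 - x1) * (y2 - y1)) / 4 ≤ |(boxCount α β N a b : ℝ) - N * (a * b)| := by
  set e : ℝ → ℝ → ℝ := fun a b => (boxCount α β N a b : ℝ) - N * (a * b) with he
  have hz : (boxCount α β N x2 y2 : ℝ) - boxCount α β N x1 y2 - boxCount α β N x2 y1 +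
      boxCount α β N x1 y1 = 0 := by
    rw [boxCount_eq, boxCount_eq, boxCount_eq, boxCount_eq, ← Finset.sum_sub_distrib,
      ← Finset.sum_sub_distrib, ← Finset.sum_add_distrib]
    refine Finset.sum_eq_zero fun n hn => ?_
    rw [Finset.mem_range] at hn
    have h := hemp n hn
    set x := Int.fract ((n : ℝ) * α)
    set y := Int.fract ((n : ℝ) * β)
    have e1 : (if x < x2 then (1 : ℝ) else 0) * (if y < y2 then 1 else 0) -
        (if x < x1 then (1 : ℝ) else 0) * (if y < y2 then 1 else 0) -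
        (if x < x2 then (1 : ℝ) else 0) * (if y < y1 then 1 else 0) +
        (if x < x1 then (1 : ℝ) else 0) * (if y < y1 then 1 else 0) =
        ((if x < x2 then (1 : ℝ) else 0) - (if x < x1 then 1 else 0)) *
        ((if y < y2 then 1 else 0) - (if y < y1 then 1 else 0)) := by ring
    rw [e1]
    by_cases a1 : x < x1
    · have a2 : x < x2 := by linarith
      simp [a1, a2]
    · by_cases a2 : x < x2
      · by_cases b1 : y < y1
        · have b2 : y < y2 := by linarith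
          simp [b1, b2]
        · have b2 : ¬ y < y2 := by
            intro b2
            exact h ⟨not_lt.mp a1, a2, not_lt.mp b1, b2⟩
          simp [b1, b2]
      · simp [a1, a2]
  have hs : e x2 y2 - e x1 y2 - e x2 y1 + e x1 y1 = -(N * ((x2 - x1) * (y2 - y1))) := by
    simp only [he]
    linarith
  set T : ℝ := N * ((x2 - x1) * (y2 - y1)) / 4 with hT
  by_contra hcon
  push Not at hcon
  have h1 := hcon x2 y2 (by linarith) hx2 (by linarith) hy2
  have h2 := hcon x1 y2 hx1 (by linarith) (by linarith) hy2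
  have h3 := hcon x2 y1 (by linarith) hx2 hy1 (by linarith)
  have h4 := hcon x1 y1 hx1 (by linarith) hy1 (by linarith)
  rw [abs_lt] at h1 h2 h3 h4
  simp only [he] at hs
  rw [hT] at h1 h2 h3 h4
  linarith [h1.1, h2.2, h3.2, h4.1]

theorem fract_form (α β : ℝ) (m h n : ℕ) :
    nn (m * Int.fract ((n : ℝ) * α) + h * Int.fract ((n : ℝ) * β)) ≤ n * nn (m * α + h * β) := by
  have e : (m : ℝ) * Int.fract ((n : ℝ) * α) + h * Int.fract ((n : ℝ) * β) =
      n * (m * α + h * β) - ((m * ⌊(n : ℝ) * α⌋ + h * ⌊(n : ℝ) * β⌋ : ℤ) : ℝ) := by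
    have h1 := Int.self_sub_floor ((n : ℝ) * α)
    have h2 := Int.self_sub_floor ((n : ℝ) * β)
    rw [← h1, ← h2]
    push_cast
    ring
  rw [e, nn_sub_int]
  exact nn_nat_mul _ _

/-- discrepancy forced by a pair `(m, h)` -/
theorem disc_two (α β : ℝ) (m h N : ℕ) (hm : 1 ≤ m) (hh : 1 ≤ h)
    (H : N * nn (m * α + h * β) ≤ 1 / 4) :
    ∃ a b : ℝ, 0 ≤ a ∧ a ≤ 1 ∧ 0 ≤ b ∧ b ≤ 1 ∧
      (N : ℝ) / (64 * (m * h)) ≤ |(boxCount α β N a b : ℝ) - N * (a * b)| := by
  have hm' : (1 : ℝ) ≤ m := by exact_mod_cast hm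
  have hh' : (1 : ℝ) ≤ h := by exact_mod_cast hh
  obtain ⟨a, b, h1, h2, h3, h4, h5⟩ := of_empty_box α β N (1 / (8 * m)) (3 / (8 * m))
    (1 / (8 * h)) (3 / (8 * h)) (by positivity) (by gcongr; norm_num)
    (by rw [div_le_one (by positivity)]; linarith) (by positivity) (by gcongr; norm_num)
    (by rw [div_le_one (by positivity)]; linarith) (by
      rintro n hn ⟨a1, a2, a3, a4⟩
      have f := fract_form α β m h n
      rw [div_le_iff₀ (by positivity)] at a1 a3
      rw [lt_div_iff₀ (by positivity)] at a2 a4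
      have g : 1 / 4 ≤ nn (m * Int.fract ((n : ℝ) * α) + h * Int.fract ((n : ℝ) * β)) :=
        le_nn (by linarith) (by linarith)
      have k : (n : ℝ) * nn (m * α + h * β) < 1 / 4 := by
        rcases (nn_nonneg (m * α + h * β)).eq_or_lt with h0 | h0
        · rw [← h0]; norm_num
        · have : (n : ℝ) < N := by exact_mod_cast hn
          exact lt_of_lt_of_le (mul_lt_mul_of_pos_right this h0) H
      linarith)
  refine ⟨a, b, h1, h2, h3, h4, le_trans (le_of_eq ?_) h5⟩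
  field_simp
  norm_num

/-- discrepancy forced by a single `u` -/
theorem disc_one (α β : ℝ) (u N : ℕ) (hu : 1 ≤ u) (H : N * nn (u * α) ≤ 1 / 4) :
    ∃ a b : ℝ, 0 ≤ a ∧ a ≤ 1 ∧ 0 ≤ b ∧ b ≤ 1 ∧
      (N : ℝ) / (8 * u) ≤ |(boxCount α β N a b : ℝ) - N * (a * b)| := by
  have hu' : (1 : ℝ) ≤ u := by exact_mod_cast hu
  obtain ⟨a, b, h1, h2, h3, h4, h5⟩ := of_empty_box α β N (1 / (4 * u)) (3 / (4 * u))
    0 1 (by positivity) (by gcongr; norm_num)
    (by rw [div_le_one (by positivity)]; linarith) le_rfl (by norm_num) le_rfl (by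
      rintro n hn ⟨a1, a2, a3, a4⟩
      have f := fract_form α β u 0 n
      rw [div_le_iff₀ (by positivity)] at a1
      rw [lt_div_iff₀ (by positivity)] at a2
      simp only [Nat.cast_zero, zero_mul, add_zero] at f
      have g : 1 / 4 ≤ nn (u * Int.fract ((n : ℝ) * α)) :=
        le_nn (by linarith) (by linarith)
      have k : (n : ℝ) * nn (u * α) < 1 / 4 := by
        rcases (nn_nonneg (u * α)).eq_or_lt with h0 | h0
        · rw [← h0]; norm_num
        · have : (n : ℝ) < N := by exact_mod_cast hn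
          exact lt_of_lt_of_le (mul_lt_mul_of_pos_right this h0) H
      linarith)
  refine ⟨a, b, h1, h2, h3, h4, le_trans (le_of_eq ?_) h5⟩
  field_simp
  ring

end Pool.Agent.FIB
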