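import Mathlib

set_option autoImplicit false

/-! FIB (MP_36674f_nt): the divergent series. -/

namespace Pool.Agent.FIB

open Finset Filter Classical

/-- scales at which `φ` is not too large -/
def good (φ : ℕ → ℝ) (j : ℕ) : Prop := φ (Nat.log 2 j) ≤ ((Nat.log 2 j : ℝ) + 1) ^ 2

noncomputable def wt (φ : ℕ → ℝ) (j : ℕ) : ℝ :=
  if good φ j then 1 / (j * φ (Nat.log 2 j)) else 0

theorem wt_nonneg {φ : ℕ → ℝ} (hφ : ∀ k, 0 < φ k) (j : ℕ) : 0 ≤ wt φ j := by
  unfold wt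
  split_ifs
  · have := hφ (Nat.log 2 j); positivity
  · exact le_rfl

theorem log_of_mem {k j : ℕ} (hj : j ∈ Ico (2 ^ k) (2 ^ (k + 1))) : Nat.log 2 j = k := by
  rw [mem_Ico] at hj
  exact Nat.log_eq_of_pow_le_of_lt_pow hj.1 hj.2

theorem block_lower {φ : ℕ → ℝ} (hφ : ∀ k, 0 < φ k) (k : ℕ) :
    (if φ k ≤ ((k : ℝ) + 1) ^ 2 then 1 / φ k else 0) / 2 ≤
      ∑ j ∈ Ico (2 ^ k) (2 ^ (k + 1)), wt φ j := by
  have h0 := hφ k
  have h1 : ∀ j ∈ Ico (2 ^ k) (2 ^ (k + 1)),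
      (if φ k ≤ ((k : ℝ) + 1) ^ 2 then 1 / φ k else 0) * (1 / (2 : ℝ) ^ (k + 1)) ≤ wt φ j := by
    intro j hj
    have hl := log_of_mem hj
    rw [mem_Ico] at hj
    unfold wt good
    rw [hl]
    split_ifs with h
    · have hj0 : 0 < j := lt_of_lt_of_le (by positivity) hj.1
      have hj' : (0 : ℝ) < j := by exact_mod_cast hj0
      have hj2 : (j : ℝ) ≤ 2 ^ (k + 1) := by exact_mod_cast hj.2.le
      rw [div_mul_div_comm, one_mul]
      apply div_le_div_of_nonneg_left (by norm_num) (by positivity)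
      rw [mul_comm]
      gcongr
    · simp
  refine le_trans ?_ (Finset.sum_le_sum h1)
  rw [Finset.sum_const, Nat.card_Ico, show 2 ^ (k + 1) - 2 ^ k = 2 ^ k by rw [pow_succ]; omega,
    nsmul_eq_mul]
  push_cast
  apply le_of_eq
  field_simp
  rw [pow_succ]
  ring

theorem sum_blocks (f : ℕ → ℝ) (n : ℕ) :
    ∑ k ∈ range n, ∑ j ∈ Ico (2 ^ k) (2 ^ (k + 1)), f j = ∑ j ∈ Ico (1 : ℕ) (2 ^ n), f j := by
  induction n with
  | zero => simp
  | succ n ih =>
    rw [Finset.sum_range_succ, ih, Finset.sum_Ico_consecutive _ Nat.one_le_two_pow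
      (Nat.pow_le_pow_right (by norm_num) (by omega))]

theorem not_summable_wt {φ : ℕ → ℝ} (hφ : ∀ k, 0 < φ k)
    (hdiv : ¬ Summable (fun k => 1 / φ k)) : ¬ Summable (wt φ) := by
  intro hs
  apply hdiv
  have h1 : Summable (fun k : ℕ => (if φ k ≤ ((k : ℝ) + 1) ^ 2 then 1 / φ k else 0)) := by
    apply summable_of_sum_range_le (c := 2 * ∑' j, wt φ j)
    · intro k
      split_ifs
      · have := hφ k; positivity
      · exact le_rfl
    · intro n
      have h2 : (∑ k ∈ range n, (if φ k ≤ ((k : ℝ) + 1) ^ 2 then 1 / φ k else 0)) / 2 ≤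
          ∑ j ∈ Ico (1 : ℕ) (2 ^ n), wt φ j := by
        rw [Finset.sum_div, ← sum_blocks]
        exact Finset.sum_le_sum fun k _ => block_lower hφ k
      have h3 : ∑ j ∈ Ico (1 : ℕ) (2 ^ n), wt φ j ≤ ∑' j, wt φ j :=
        hs.sum_le_tsum _ fun j _ => wt_nonneg hφ j
      linarith
  have h2 : Summable (fun k : ℕ => 1 / ((k : ℝ) + 1) ^ 2) := by
    have := (summable_nat_add_iff 1).mpr (Real.summable_one_div_nat_pow.mpr (by norm_num : 1 < 2))
    simpa using this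
  refine Summable.of_nonneg_of_le (fun k => by have := hφ k; positivity) (fun k => ?_)
    (h1.add h2)
  have h0 := hφ k
  split_ifs with h
  · have : (0 : ℝ) ≤ 1 / ((k : ℝ) + 1) ^ 2 := by positivity
    linarith
  · push Not at h
    rw [zero_add]
    exact one_div_le_one_div_of_le (by positivity) h.le

theorem exists_block {φ : ℕ → ℝ} (hφ : ∀ k, 0 < φ k)
    (hdiv : ¬ Summable (fun k => 1 / φ k)) (K : ℝ) (n : ℕ) :
    ∃ J : Finset ℕ, (∀ j ∈ J, n ≤ j ∧ good φ j) ∧ K ≤ ∑ j ∈ J, 1 / ((j : ℝ) * φ (Nat.log 2 j)) := by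
  have h1 := not_summable_wt hφ hdiv
  rw [not_summable_iff_tendsto_nat_atTop_of_nonneg (wt_nonneg hφ)] at h1
  obtain ⟨N, hN⟩ := (h1.eventually_ge_atTop (K + ∑ j ∈ range n, wt φ j)).exists
  refine ⟨(Ico n N).filter (fun j => good φ j), ?_, ?_⟩
  · intro j hj
    rw [mem_filter, mem_Ico] at hj
    exact ⟨hj.1.1, hj.2⟩
  · rw [Finset.sum_filter]
    have e : ∀ j ∈ Ico n N, (if good φ j then 1 / ((j : ℝ) * φ (Nat.log 2 j)) else 0) = wt φ j :=
      fun j _ => rfl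
    rw [Finset.sum_congr rfl e]
    rcases le_total n N with h | h
    · have := Finset.sum_range_add_sum_Ico (wt φ) h
      linarith
    · have h2 : ∑ j ∈ range N, wt φ j ≤ ∑ j ∈ range n, wt φ j :=
        Finset.sum_le_sum_of_subset_of_nonneg (Finset.range_subset_range.mpr h)
          fun j _ _ => wt_nonneg hφ j
      have h3 : 0 ≤ ∑ j ∈ Ico n N, wt φ j := Finset.sum_nonneg fun j _ => wt_nonneg hφ j
      linarith

end Pool.Agent.FIB
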