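import Mathlib
import Pool.Agent.FIB.Basic

set_option autoImplicit false

/-! FIB (MP_36674f_nt): upper bounds for the number of `k < X` with `‖k γ - θ‖ < η`. -/

namespace Pool.Agent.FIB

open Finset

theorem card_nat_le (F : Finset ℕ) (lo hi : ℝ) (h : ∀ z ∈ F, lo ≤ z ∧ (z : ℝ) < hi)
    (hl : lo ≤ hi) : (F.card : ℝ) ≤ hi - lo + 1 := by
  have h1 : F.map Nat.castEmbedding ⊆ Finset.Icc ⌈lo⌉ (⌈hi⌉ - 1) := by
    intro z hz
    rw [Finset.mem_map] at hz
    obtain ⟨w, hw, rfl⟩ := hz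
    obtain ⟨a, b⟩ := h w hw
    rw [Finset.mem_Icc]
    constructor
    · exact Int.ceil_le.mpr (by simpa using a)
    · have : ((w : ℤ) : ℝ) < hi := by simpa using b
      have := Int.lt_ceil.mpr this
      simp only [Nat.castEmbedding_apply]
      omega
  have h2 := Finset.card_le_card h1
  rw [Int.card_Icc, Finset.card_map] at h2
  have h3 : (F.card : ℝ) ≤ ((⌈hi⌉ - 1 + 1 - ⌈lo⌉).toNat : ℝ) := by exact_mod_cast h2
  refine h3.trans ?_
  have e1 := Int.ceil_lt_add_one hi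
  have e2 := Int.le_ceil lo
  rcases le_or_gt 0 (⌈hi⌉ - 1 + 1 - ⌈lo⌉) with h4 | h4
  · have h5 : (((⌈hi⌉ - 1 + 1 - ⌈lo⌉).toNat : ℤ) : ℝ) =
        ((⌈hi⌉ - 1 + 1 - ⌈lo⌉ : ℤ) : ℝ) := by rw [Int.toNat_of_nonneg h4]
    rw [Int.cast_natCast] at h5
    rw [h5]
    push_cast
    linarith
  · rw [Int.toNat_of_nonpos h4.le]
    simp only [Nat.cast_zero]
    linarith

/-- a set of naturals in `[lo, hi]` with gaps `≥ G` -/
theorem card_gap_le (F : Finset ℕ) (lo hi : ℝ) (G : ℕ) (hG : 0 < G)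
    (h : ∀ z ∈ F, lo ≤ z ∧ (z : ℝ) ≤ hi)
    (hgap : ∀ z ∈ F, ∀ w ∈ F, z < w → G ≤ w - z) (hl : lo ≤ hi) :
    (F.card : ℝ) ≤ (hi - lo) / G + 3 := by
  have hG' : (0 : ℝ) < G := by exact_mod_cast hG
  have hinj : Set.InjOn (fun z : ℕ => z / G) F := by
    intro z hz w hw he
    by_contra hne
    wlog hlt : z < w generalizing z w
    · exact this hw hz he.symm (Ne.symm hne) (by omega)
    · have h1 := hgap z hz w hw hlt
      simp only at he
      have h2 : z / G + 1 ≤ w / G := by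
        rw [Nat.le_div_iff_mul_le hG, add_mul, one_mul]
        have := Nat.div_mul_le_self z G
        omega
      omega
  rw [← Finset.card_image_of_injOn hinj]
  have := card_nat_le (F.image (fun z : ℕ => z / G)) (lo / G - 1) (hi / G + 1) ?_ ?_
  · refine this.trans (le_of_eq ?_)
    field_simp
    ring
  · intro z hz
    rw [Finset.mem_image] at hz
    obtain ⟨w, hw, rfl⟩ := hz
    obtain ⟨a, b⟩ := h w hw
    have e1 : ((w / G : ℕ) : ℝ) ≤ w / G := Nat.cast_div_le
    have e2 : (w : ℝ) / G < ((w / G : ℕ) : ℝ) + 1 := by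
      rw [div_lt_iff₀ hG']
      have : w < (w / G + 1) * G := by
        have := Nat.lt_div_mul_add (a := w) (b := G) hG
        rw [add_mul, one_mul]
        exact this
      exact_mod_cast this
    have e3 : lo / G ≤ w / G := by gcongr
    have e4 : (w : ℝ) / G ≤ hi / G := by gcongr
    constructor <;> linarith
  · have : lo / G ≤ hi / G := by gcongr
    linarith

/-- Equidistribution upper bound via a short Bohr orbit. -/
theorem equi (γ θ η : ℝ) (q : ℕ) (h0 : 0 < nn (q * γ)) (h1 : nn (q * γ) ≤ η)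
    (h2 : η ≤ 1 / 4) (X : ℕ) :
    (((Finset.range X).filter (fun k : ℕ => nn (k * γ - θ) < η)).card : ℝ) ≤
      8 * η * (X + q * (1 / nn (q * γ) + 1)) := by
  classical
  set δ := nn (q * γ) with hδ
  have hη : 0 < η := h0.trans_le h1
  set S := (Finset.range X).filter (fun k : ℕ => nn (k * γ - θ) < η) with hS
  -- the sign
  obtain ⟨p, hp⟩ := exists_int (q * γ)
  obtain ⟨ε, hε, hpe⟩ : ∃ ε : ℝ, (ε = 1 ∨ ε = -1) ∧ q * γ = p + ε * δ := by
    rcases abs_cases ((q : ℝ) * γ - p) with ⟨e, _⟩ | ⟨e, _⟩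
    · exact ⟨1, Or.inl rfl, by rw [hδ, hp, e]; ring⟩
    · exact ⟨-1, Or.inr rfl, by rw [hδ, hp, e]; ring⟩
  set R := ⌊1 / (4 * η)⌋₊ with hR
  have hR1 : (R : ℝ) ≤ 1 / (4 * η) := Nat.floor_le (by positivity)
  have hR2 : 1 / (8 * η) ≤ R := by
    have a1 : (1 : ℝ) ≤ 1 / (4 * η) := by
      rw [le_div_iff₀ (by positivity)]; linarith
    have a2 : 1 ≤ R := Nat.one_le_floor_iff _ |>.mpr a1
    have a3 : 1 / (4 * η) < R + 1 := Nat.lt_floor_add_one _
    have a4 : (1 : ℝ) ≤ R := by exact_mod_cast a2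
    have a5 : 1 / (8 * η) = (1 / (4 * η)) / 2 := by field_simp; ring
    rw [a5]; linarith
  set l : ℕ → ℕ := fun s => ⌈4 * η * s / δ⌉₊ with hl
  have hl1 : ∀ s : ℕ, 4 * η * s ≤ l s * δ := by
    intro s
    have := Nat.le_ceil (4 * η * s / δ)
    rwa [div_le_iff₀ h0] at this
  have hl2 : ∀ s : ℕ, l s * δ < 4 * η * s + δ := by
    intro s
    have := Nat.ceil_lt_add_one (show (0 : ℝ) ≤ 4 * η * s / δ by positivity)
    have := mul_lt_mul_of_pos_right this h0
    rwa [add_mul, div_mul_cancel₀ _ h0.ne', one_mul] at this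
  -- the shifted copies
  set T : ℕ → Finset ℕ := fun s => S.map (addRightEmbedding (q * l s)) with hT
  have hTcard : ∀ s, (T s).card = S.card := fun s => Finset.card_map _
  set Y : ℕ := X + ⌊q * (1 / δ + 1)⌋₊ with hY
  have hTsub : ∀ s ∈ Finset.range R, T s ⊆ Finset.range Y := by
    intro s hs k hk
    rw [Finset.mem_range] at hs
    simp only [hT, Finset.mem_map, addRightEmbedding_apply] at hk
    obtain ⟨k', hk', rfl⟩ := hk
    rw [hS, Finset.mem_filter, Finset.mem_range] at hk'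
    rw [Finset.mem_range]
    have hs' : (s : ℝ) ≤ R := by exact_mod_cast hs.le
    have a1 : (l s : ℝ) ≤ 1 / δ + 1 := by
      have b1 := hl2 s
      have b2 : 4 * η * s ≤ 1 := by
        have : (s : ℝ) ≤ 1 / (4 * η) := hs'.trans hR1
        rw [le_div_iff₀ (by positivity)] at this
        linarith
      have b3 : l s * δ ≤ 1 + δ := by linarith
      have b4 : (l s : ℝ) ≤ (1 + δ) / δ := by rwa [le_div_iff₀ h0]
      rwa [add_div, div_self h0.ne'] at b4
    have a2 : q * l s ≤ ⌊q * (1 / δ + 1)⌋₊ := by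
      rw [Nat.le_floor_iff (by positivity)]
      push_cast
      gcongr
    omega
  have hdisj : ∀ s ∈ Finset.range R, ∀ t ∈ Finset.range R, s ≠ t → Disjoint (T s) (T t) := by
    intro s hs t ht hst
    wlog hlt : t < s generalizing s t
    · exact (this t ht s hs (Ne.symm hst) (by omega)).symm
    rw [Finset.disjoint_left]
    intro k hk hk2
    simp only [hT, Finset.mem_map, addRightEmbedding_apply] at hk hk2
    obtain ⟨k1, hk1, e1⟩ := hk
    obtain ⟨k2, hk2, e2⟩ := hk2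
    rw [hS, Finset.mem_filter] at hk1 hk2
    rw [Finset.mem_range] at hs ht
    have e : k1 + q * l s = k2 + q * l t := by omega
    have e' : (k1 : ℝ) + q * l s = k2 + q * l t := by exact_mod_cast e
    -- (k2 γ - θ) - (k1 γ - θ) = q γ (l s - l t)
    have f1 : ((k2 : ℝ) * γ - θ) - (k1 * γ - θ) =
        ε * (l s * δ - l t * δ) + (((l s : ℤ) - l t) * p : ℤ) := by
      have : ((k2 : ℝ) - k1) * γ = (q * γ) * (l s - l t) := by
        have : (k2 : ℝ) - k1 = q * (l s - l t) := by linarith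
        rw [this]; ring
      have g : ((k2 : ℝ) * γ - θ) - (k1 * γ - θ) = ((k2 : ℝ) - k1) * γ := by ring
      rw [g, this, hpe]
      push_cast
      ring
    have f2 : nn (((k2 : ℝ) * γ - θ) - (k1 * γ - θ)) < 2 * η := by
      refine (nn_sub _ _).trans_lt ?_
      linarith [hk1.2, hk2.2]
    rw [f1, nn_add_int] at f2
    have f3 : nn (l s * δ - l t * δ) < 2 * η := by
      rcases hε with rfl | rfl
      · simpa using f2
      · rw [← nn_neg]; simpa using f2
    have hs1 : (s : ℝ) + 1 ≤ R := by exact_mod_cast hs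
    have ht1 : (t : ℝ) + 1 ≤ s := by exact_mod_cast hlt
    have g1 : 3 * η ≤ l s * δ - l t * δ := by
      have := hl1 s
      have := hl2 t
      have : 4 * η * ((t : ℝ) + 1) ≤ 4 * η * s := by gcongr
      nlinarith
    have g2 : l s * δ - l t * δ ≤ 1 - 3 * η := by
      have b1 := hl2 s
      have b2 := hl1 t
      have b3 : 4 * η * ((s : ℝ) + 1) ≤ 1 := by
        have : (s : ℝ) + 1 ≤ 1 / (4 * η) := hs1.trans hR1
        rw [le_div_iff₀ (by positivity)] at this
        linarith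
      have b4 : (0 : ℝ) ≤ 4 * η * t := by positivity
      nlinarith
    have := le_nn g1 g2
    linarith
  have hsum : R * S.card ≤ Y := by
    have h3 : ((Finset.range R).biUnion T).card = ∑ s ∈ Finset.range R, (T s).card :=
      Finset.card_biUnion hdisj
    have h4 : (Finset.range R).biUnion T ⊆ Finset.range Y := by
      rw [Finset.biUnion_subset]
      exact hTsub
    have h5 := Finset.card_le_card h4
    rw [h3, Finset.card_range, Finset.sum_congr rfl (fun s _ => hTcard s),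
      Finset.sum_const, Finset.card_range, smul_eq_mul] at h5
    exact h5
  have hsum' : (R : ℝ) * S.card ≤ X + q * (1 / δ + 1) := by
    have a1 : (R : ℝ) * S.card ≤ (Y : ℝ) := by
      rw [← Nat.cast_mul]; exact Nat.cast_le.mpr hsum
    refine a1.trans ?_
    rw [hY, Nat.cast_add]
    have : ((⌊q * (1 / δ + 1)⌋₊ : ℕ) : ℝ) ≤ q * (1 / δ + 1) := Nat.floor_le (by positivity)
    linarith
  have h6 : 1 / (8 * η) * S.card ≤ X + q * (1 / δ + 1) :=
    le_trans (mul_le_mul_of_nonneg_right hR2 (Nat.cast_nonneg _)) hsum'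
  rw [div_mul_eq_mul_div, one_mul, div_le_iff₀ (by positivity)] at h6
  linarith

/-- Diophantine version -/
theorem equi_dioph (α c : ℝ) (hc : 0 < c) (hc1 : c ≤ 1)
    (hα : ∀ u : ℕ, 1 ≤ u → c / (u : ℝ) ^ 2 ≤ nn (u * α))
    (m : ℕ) (hm : 1 ≤ m) (θ η : ℝ) (hη : 0 < η) (h2 : η ≤ 1 / 4) (X : ℕ) :
    (((Finset.range X).filter (fun k : ℕ => nn (k * (m * α) - θ) < η)).card : ℝ) ≤
      8 * η * (X + 16 * (m : ℝ) ^ 2 / (c * η ^ 3)) := by
  obtain ⟨q, hq0, hqn, hq⟩ := Real.exists_nat_abs_mul_sub_round_le (m * α)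
    (n := ⌈1 / η⌉₊) (Nat.ceil_pos.mpr (by positivity))
  have hm' : (1 : ℝ) ≤ m := by exact_mod_cast hm
  have hq0' : (1 : ℝ) ≤ q := by exact_mod_cast hq0
  have h3 : nn (q * (m * α)) ≤ η := by
    rw [nn_eq]
    refine hq.trans ?_
    rw [div_le_iff₀ (by positivity)]
    have := Nat.le_ceil (1 / η)
    rw [div_le_iff₀ hη] at this
    nlinarith
  have hqm : 1 ≤ q * m := Nat.mul_pos hq0 hm
  have h4 : c / ((q : ℝ) * m) ^ 2 ≤ nn (q * (m * α)) := by
    have := hα (q * m) hqm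
    push_cast at this
    rwa [mul_assoc] at this
  have h5 : 0 < nn (q * (m * α)) := lt_of_lt_of_le (by positivity) h4
  refine (equi (m * α) θ η q h5 h3 h2 X).trans ?_
  have hq2 : (q : ℝ) ≤ 2 / η := by
    have a1 : (q : ℝ) ≤ ⌈1 / η⌉₊ := by exact_mod_cast hqn
    have a2 := Nat.ceil_lt_add_one (show (0 : ℝ) ≤ 1 / η by positivity)
    have a3 : (1 : ℝ) ≤ 1 / η := by
      rw [le_div_iff₀ hη]; linarith
    have a4 : (2 : ℝ) / η = 1 / η + 1 / η := by ring
    rw [a4]; linarith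
  have h6 : (q : ℝ) * (1 / nn (q * (m * α)) + 1) ≤ 16 * (m : ℝ) ^ 2 / (c * η ^ 3) := by
    have b1 : 1 / nn (q * (m * α)) ≤ ((q : ℝ) * m) ^ 2 / c := by
      rw [div_le_div_iff₀ h5 hc]
      rw [div_le_iff₀ (by positivity)] at h4
      linarith
    have b2 : (1 : ℝ) ≤ ((q : ℝ) * m) ^ 2 / c := by
      rw [le_div_iff₀ hc]
      have : (1 : ℝ) ≤ ((q : ℝ) * m) ^ 2 := by
        apply one_le_pow₀
        nlinarith
      linarith
    calc (q : ℝ) * (1 / nn (q * (m * α)) + 1)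
        ≤ q * (2 * (((q : ℝ) * m) ^ 2 / c)) := by
          gcongr; linarith
      _ = 2 * (q : ℝ) ^ 3 * (m : ℝ) ^ 2 / c := by ring
      _ ≤ 2 * (2 / η) ^ 3 * (m : ℝ) ^ 2 / c := by gcongr
      _ = 16 * (m : ℝ) ^ 2 / (c * η ^ 3) := by
          field_simp
          ring
  gcongr

end Pool.Agent.FIB
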