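import Mathlib
import Pool.Agent.FIB.Basic
import Pool.Agent.FIB.Equi

set_option autoImplicit false

/-! FIB (MP_36674f_nt): counting the resonant cofactors at neighbouring scales. -/

namespace Pool.Agent.FIB

open Finset

/-- cofactors: `x` with `2^j ≤ d x < 2^(j+1)` -/
def R (j d : ℕ) : Finset ℕ :=
  (range (2 ^ (j + 1))).filter (fun x => 2 ^ j ≤ d * x ∧ d * x < 2 ^ (j + 1))

theorem mem_R {j d x : ℕ} (hd : 1 ≤ d) : x ∈ R j d ↔ 2 ^ j ≤ d * x ∧ d * x < 2 ^ (j + 1) := by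
  unfold R
  rw [mem_filter, mem_range]
  constructor
  · exact fun h => h.2
  · intro h
    refine ⟨?_, h⟩
    have : x ≤ d * x := Nat.le_mul_of_pos_left _ hd
    omega

theorem R_real {j d x : ℕ} (hd : 1 ≤ d) (hx : x ∈ R j d) :
    (2 : ℝ) ^ j / d ≤ x ∧ (x : ℝ) < 2 * (2 : ℝ) ^ j / d := by
  rw [mem_R hd] at hx
  have hd' : (0 : ℝ) < d := by exact_mod_cast hd
  constructor
  · rw [div_le_iff₀ hd']
    have : (2 : ℝ) ^ j ≤ d * x := by exact_mod_cast hx.1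
    linarith
  · rw [lt_div_iff₀ hd']
    have : (d : ℝ) * x < 2 ^ (j + 1) := by exact_mod_cast hx.2
    rw [pow_succ] at this
    linarith

theorem card_R {j d : ℕ} (hd : 1 ≤ d) : ((R j d).card : ℝ) ≤ 2 ^ j / d + 1 := by
  have hd' : (0 : ℝ) < d := by exact_mod_cast hd
  have := card_nat_le (R j d) ((2 : ℝ) ^ j / d) (2 * (2 : ℝ) ^ j / d)
    (fun z hz => R_real hd hz) (by gcongr; linarith [show (0 : ℝ) < 2 ^ j by positivity])
  refine this.trans (le_of_eq ?_)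
  ring

theorem card_R3 {j d : ℕ} (hd : 1 ≤ d) (hd2 : d < 2 ^ (j + 1)) :
    ((R j d).card : ℝ) ≤ 3 * 2 ^ j / d := by
  have hd' : (0 : ℝ) < d := by exact_mod_cast hd
  refine (card_R hd).trans ?_
  have h1 : (1 : ℝ) ≤ 2 * 2 ^ j / d := by
    rw [le_div_iff₀ hd']
    have : (d : ℝ) ≤ 2 ^ (j + 1) := by exact_mod_cast hd2.le
    rw [pow_succ] at this
    linarith
  have h2 : 3 * (2 : ℝ) ^ j / d = 2 ^ j / d + 2 * 2 ^ j / d := by ring
  rw [h2]
  linarith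

/-- the resonance condition -/
def res (α : ℝ) (m m' h k : ℕ) (η : ℝ) : Prop := nn (k * (m * α) - h * (m' * α)) < η

open Classical in
/-- small common divisor -/
theorem near_small (α c : ℝ) (hc : 0 < c) (hc1 : c ≤ 1)
    (hα : ∀ u : ℕ, 1 ≤ u → c / (u : ℝ) ^ 2 ≤ nn (u * α))
    (s j j' m d : ℕ) (η : ℝ) (hcs : (2 : ℝ) ^ 200 ≤ c * 2 ^ (2 * s)) (hj : 100 * s ≤ j)
    (hjj : j ≤ j') (hm : 1 ≤ m) (hm2 : m < 2 ^ s) (hd : 1 ≤ d) (hd2 : d ≤ 2 ^ (20 * s))
    (hη : 1 / (2 : ℝ) ^ (22 * s) ≤ η) (h m' : ℕ) :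
    (((R j' d).filter (fun k => res α m m' h k η)).card : ℝ) ≤ 32 * η * (2 ^ j' / d) := by
  have hd' : (0 : ℝ) < d := by exact_mod_cast hd
  have hη0 : 0 < η := lt_of_lt_of_le (by positivity) hη
  have hdj : (1 : ℝ) ≤ 2 ^ j' / d := by
    rw [one_le_div hd']
    have : d ≤ 2 ^ j' := hd2.trans (Nat.pow_le_pow_right (by norm_num) (by omega))
    exact_mod_cast this
  rcases le_or_gt η (1 / 4) with h4 | h4
  · have hsub : (R j' d).filter (fun k => res α m m' h k η) ⊆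
        (range (2 ^ (j' + 1) / d + 1)).filter
          (fun k : ℕ => nn (k * (m * α) - h * (m' * α)) < η) := by
      intro k hk
      rw [mem_filter] at hk ⊢
      refine ⟨?_, hk.2⟩
      rw [mem_range]
      have := ((mem_R hd).mp hk.1).2
      have : k ≤ 2 ^ (j' + 1) / d := by
        rw [Nat.le_div_iff_mul_le hd, mul_comm]; omega
      omega
    have h1 : (((R j' d).filter (fun k => res α m m' h k η)).card : ℝ) ≤
        ((range (2 ^ (j' + 1) / d + 1)).filter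
          (fun k : ℕ => nn (k * (m * α) - h * (m' * α)) < η)).card := by
      exact_mod_cast Finset.card_le_card hsub
    refine h1.trans ((equi_dioph α c hc hc1 hα m hm _ η hη0 h4 _).trans ?_)
    have h2 : ((2 ^ (j' + 1) / d + 1 : ℕ) : ℝ) ≤ 3 * (2 ^ j' / d) := by
      have h0 : ((2 ^ (j' + 1) / d : ℕ) : ℝ) ≤ ((2 ^ (j' + 1) : ℕ) : ℝ) / d := Nat.cast_div_le
      have e : ((2 ^ (j' + 1) : ℕ) : ℝ) / d = 2 * (2 ^ j' / d) := by
        push_cast; rw [pow_succ]; ring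
      rw [e] at h0
      rw [Nat.cast_add, Nat.cast_one]
      linarith
    have h3 : 16 * (m : ℝ) ^ 2 / (c * η ^ 3) ≤ 2 ^ j' / d := by
      have hm' : (m : ℝ) ≤ 2 ^ s := by exact_mod_cast hm2.le
      have a1 : (m : ℝ) ^ 2 ≤ 2 ^ (2 * s) := by
        rw [mul_comm, pow_mul]; gcongr
      have a2 : (1 / (2 : ℝ) ^ (22 * s)) ^ 3 ≤ η ^ 3 := by gcongr
      have a3 : (1 / (2 : ℝ) ^ (22 * s)) ^ 3 = 1 / 2 ^ (66 * s) := by
        rw [div_pow, one_pow, ← pow_mul]; congr 2; ring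
      rw [a3] at a2
      have a4 : (1 : ℝ) ≤ 2 ^ (66 * s) * η ^ 3 := by
        rw [div_le_iff₀ (by positivity)] at a2
        linarith
      have a5 : (d : ℝ) ≤ 2 ^ (20 * s) := by exact_mod_cast hd2
      have a6 : (2 : ℝ) ^ (100 * s) ≤ 2 ^ j' :=
        pow_le_pow_right₀ (by norm_num) (by omega)
      rw [div_le_div_iff₀ (by positivity) hd']
      calc 16 * (m : ℝ) ^ 2 * d ≤ 16 * 2 ^ (2 * s) * 2 ^ (20 * s) := by gcongr
        _ = 16 * 2 ^ (22 * s) := by rw [mul_assoc, ← pow_add]; congr 2; ring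
        _ ≤ 16 * 2 ^ (22 * s) * (2 ^ (66 * s) * η ^ 3) := by
            have : (0 : ℝ) ≤ 16 * 2 ^ (22 * s) := by positivity
            nlinarith
        _ = 16 * 2 ^ (88 * s) * η ^ 3 := by
            rw [show 88 * s = 22 * s + 66 * s by ring, pow_add]; ring
        _ ≤ (c * 2 ^ (2 * s)) * 2 ^ (98 * s) * η ^ 3 := by
            have b1 : (16 : ℝ) ≤ c * 2 ^ (2 * s) := le_trans (by norm_num) hcs
            have b2 : (2 : ℝ) ^ (88 * s) ≤ 2 ^ (98 * s) :=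
              pow_le_pow_right₀ (by norm_num) (by omega)
            gcongr
        _ = 2 ^ (100 * s) * (c * η ^ 3) := by
            rw [show 100 * s = 2 * s + 98 * s by ring, pow_add]; ring
        _ ≤ 2 ^ j' * (c * η ^ 3) := by gcongr
    calc 8 * η * (((2 ^ (j' + 1) / d + 1 : ℕ) : ℝ) + 16 * (m : ℝ) ^ 2 / (c * η ^ 3))
        ≤ 8 * η * (3 * (2 ^ j' / d) + 2 ^ j' / d) := by gcongr
      _ = 32 * η * (2 ^ j' / d) := by ring
  · have h1 : (((R j' d).filter (fun k => res α m m' h k η)).card : ℝ) ≤ (R j' d).card := by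
      exact_mod_cast Finset.card_le_card (Finset.filter_subset _ _)
    refine h1.trans ((card_R hd).trans ?_)
    nlinarith

open Classical in
/-- large common divisor: gap bound -/
theorem near_large (α c : ℝ) (hc : 0 < c)
    (hα : ∀ u : ℕ, 1 ≤ u → c / (u : ℝ) ^ 2 ≤ nn (u * α))
    (s j' m d : ℕ) (η : ℝ) (hcs : (2 : ℝ) ^ 200 ≤ c * 2 ^ (2 * s))
    (hm : 1 ≤ m) (hm2 : m < 2 ^ s) (hd : 2 ^ (20 * s) < d)
    (hη : η ≤ 2 ^ (2 * s) / d) (h m' : ℕ) :
    (((R j' d).filter (fun k => res α m m' h k η)).card : ℝ) ≤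
      2 ^ j' / (d * 2 ^ (7 * s)) + 3 := by
  have hd1 : 1 ≤ d := by have := Nat.one_le_two_pow (n := 20 * s); omega
  have hd' : (0 : ℝ) < d := by exact_mod_cast hd1
  have hd2 : (2 : ℝ) ^ (20 * s) ≤ d := by exact_mod_cast hd.le
  have := card_gap_le ((R j' d).filter (fun k => res α m m' h k η))
    ((2 : ℝ) ^ j' / d) (2 * (2 : ℝ) ^ j' / d) (2 ^ (7 * s)) (by positivity)
    (fun z hz => ⟨(R_real hd1 (mem_filter.mp hz).1).1, (R_real hd1 (mem_filter.mp hz).1).2.le⟩)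
    ?_ (by gcongr; linarith [show (0 : ℝ) < 2 ^ j' by positivity])
  · refine this.trans (le_of_eq ?_)
    push_cast
    field_simp
    ring
  · intro z hz w hw hzw
    by_contra hlt
    push Not at hlt
    rw [mem_filter] at hz hw
    have h1 : nn ((w * (m * α) - h * (m' * α)) - (z * (m * α) - h * (m' * α))) < 2 * η := by
      refine (nn_sub _ _).trans_lt ?_
      have a1 : nn (w * (m * α) - h * (m' * α)) < η := hw.2
      have a2 : nn (z * (m * α) - h * (m' * α)) < η := hz.2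
      linarith
    have h2 : (w * (m * α) - h * (m' * α)) - (z * (m * α) - h * (m' * α)) =
        (((w - z) * m : ℕ) : ℝ) * α := by
      push_cast [Nat.cast_sub hzw.le]
      ring
    rw [h2] at h1
    have h3 : 1 ≤ (w - z) * m := Nat.mul_pos (by omega) hm
    have h4 := hα _ h3
    have h5 : (((w - z) * m : ℕ) : ℝ) ≤ 2 ^ (8 * s) := by
      have : (w - z) * m ≤ 2 ^ (7 * s) * 2 ^ s := Nat.mul_le_mul hlt.le hm2.le
      rw [← pow_add, show 7 * s + s = 8 * s by ring] at this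
      exact_mod_cast this
    have h6 : c / (2 : ℝ) ^ (16 * s) ≤ c / ((((w - z) * m : ℕ) : ℝ)) ^ 2 := by
      have : (0 : ℝ) < (((w - z) * m : ℕ) : ℝ) := by exact_mod_cast h3
      have e : (2 : ℝ) ^ (16 * s) = (2 ^ (8 * s)) ^ 2 := by rw [← pow_mul]; congr 1; ring
      rw [e]
      gcongr
    have h7 : c / (2 : ℝ) ^ (16 * s) < 2 * (2 ^ (2 * s) / 2 ^ (20 * s)) := by
      have : η ≤ 2 ^ (2 * s) / 2 ^ (20 * s) := hη.trans (by gcongr)
      linarith
    rw [← mul_div_assoc, div_lt_div_iff₀ (by positivity) (by positivity)] at h7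
    have h8 : 2 * (2 : ℝ) ^ (2 * s) * 2 ^ (16 * s) = 2 * 2 ^ (18 * s) := by
      rw [mul_assoc, ← pow_add]; congr 2; ring
    have h9 : c * (2 : ℝ) ^ (20 * s) = (c * 2 ^ (2 * s)) * 2 ^ (18 * s) := by
      rw [mul_assoc, ← pow_add]; congr 2; ring
    rw [h8, h9] at h7
    have h10 : (c * (2 : ℝ) ^ (2 * s)) < 2 := lt_of_mul_lt_mul_right h7 (by positivity)
    have : (2 : ℝ) ≤ 2 ^ 200 := by norm_num
    linarith

/-- huge common divisor: no resonance at all -/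
theorem near_huge (α c : ℝ) (hc : 0 < c)
    (hα : ∀ u : ℕ, 1 ≤ u → c / (u : ℝ) ^ 2 ≤ nn (u * α))
    (s j j' m m' d : ℕ) (η : ℝ) (hcs : (2 : ℝ) ^ 200 ≤ c * 2 ^ (2 * s))
    (hj : j < 100 * (s + 1)) (hjj : j' < j + 2 * s)
    (hm2 : m < 2 ^ s) (hm2' : m' < 2 ^ (2 * s)) (hd : 2 ^ (80 * s) ≤ d)
    (hη : η ≤ 2 ^ (2 * s) / d) (h k : ℕ) (hh : h ∈ R j d) (hk : k ∈ R j' d)
    (hne : k * m ≠ h * m') : ¬ res α m m' h k η := by
  intro hres
  have hd1 : 1 ≤ d := by have := Nat.one_le_two_pow (n := 80 * s); omega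
  have hd' : (0 : ℝ) < d := by exact_mod_cast hd1
  -- the integer u
  obtain ⟨u, hu1, hu2, hu3⟩ : ∃ u : ℕ, 1 ≤ u ∧ u ≤ max (k * m) (h * m') ∧
      nn (k * (m * α) - h * (m' * α)) = nn (u * α) := by
    rcases Nat.lt_or_gt_of_ne hne with h1 | h1
    · refine ⟨h * m' - k * m, by omega, by omega, ?_⟩
      rw [← nn_neg]
      congr 1
      push_cast [Nat.cast_sub h1.le]
      ring
    · refine ⟨k * m - h * m', by omega, by omega, ?_⟩
      congr 1
      push_cast [Nat.cast_sub h1.le]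
      ring
  have h3 := hα u hu1
  have h4 : nn (u * α) < η := by rw [← hu3]; exact hres
  have hk2 := (mem_R hd1).mp hk
  have hh2 := (mem_R hd1).mp hh
  have e1 : d * (k * m) ≤ 2 ^ (j + 3 * s + 1) := by
    calc d * (k * m) = (d * k) * m := by ring
      _ ≤ 2 ^ (j' + 1) * 2 ^ s := Nat.mul_le_mul hk2.2.le hm2.le
      _ = 2 ^ (j' + 1 + s) := by rw [← pow_add]
      _ ≤ 2 ^ (j + 3 * s + 1) := Nat.pow_le_pow_right (by norm_num) (by omega)
  have e2 : d * (h * m') ≤ 2 ^ (j + 3 * s + 1) := by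
    calc d * (h * m') = (d * h) * m' := by ring
      _ ≤ 2 ^ (j + 1) * 2 ^ (2 * s) := Nat.mul_le_mul hh2.2.le hm2'.le
      _ = 2 ^ (j + 1 + 2 * s) := by rw [← pow_add]
      _ ≤ 2 ^ (j + 3 * s + 1) := Nat.pow_le_pow_right (by norm_num) (by omega)
  have e3 : d * u ≤ 2 ^ (j + 3 * s + 1) := by
    rcases le_total (k * m) (h * m') with h5 | h5
    · rw [max_eq_right h5] at hu2
      exact (Nat.mul_le_mul_left d hu2).trans e2
    · rw [max_eq_left h5] at hu2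
      exact (Nat.mul_le_mul_left d hu2).trans e1
  have e4 : (d : ℝ) * u ≤ 2 ^ (103 * s + 100) := by
    have : d * u ≤ 2 ^ (103 * s + 100) :=
      e3.trans (Nat.pow_le_pow_right (by norm_num) (by omega))
    exact_mod_cast this
  have hu' : (0 : ℝ) < u := by exact_mod_cast hu1
  have e5 : (u : ℝ) ≤ 2 ^ (103 * s + 100) / d := by
    rw [le_div_iff₀ hd']; linarith
  -- c / u^2 < 2^(2s)/d
  have h6 : c / (u : ℝ) ^ 2 < 2 ^ (2 * s) / d := by linarith
  rw [div_lt_div_iff₀ (by positivity) hd'] at h6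
  -- c d < 2^(2s) u^2, hence c d^3 < 2^(2s) (d u)^2
  have h7 : c * (d : ℝ) ^ 3 < 2 ^ (2 * s) * ((d : ℝ) * u) ^ 2 := by
    have := mul_lt_mul_of_pos_right h6 (show (0 : ℝ) < d ^ 2 by positivity)
    calc c * (d : ℝ) ^ 3 = c * (d : ℝ) * (d : ℝ) ^ 2 := by ring
      _ < 2 ^ (2 * s) * (u : ℝ) ^ 2 * (d : ℝ) ^ 2 := this
      _ = _ := by ring
  have h8 : (2 : ℝ) ^ (240 * s) ≤ (d : ℝ) ^ 3 := by
    have : (2 : ℝ) ^ (80 * s) ≤ d := by exact_mod_cast hd
    calc (2 : ℝ) ^ (240 * s) = (2 ^ (80 * s)) ^ 3 := by rw [← pow_mul]; congr 1; ring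
      _ ≤ (d : ℝ) ^ 3 := by gcongr
  have h9 : ((d : ℝ) * u) ^ 2 ≤ 2 ^ (206 * s + 200) := by
    calc ((d : ℝ) * u) ^ 2 ≤ (2 ^ (103 * s + 100)) ^ 2 := by gcongr
      _ = 2 ^ (206 * s + 200) := by rw [← pow_mul]; congr 1; ring
  have h10 : c * (2 : ℝ) ^ (240 * s) < 2 ^ (2 * s) * 2 ^ (206 * s + 200) := by
    calc c * (2 : ℝ) ^ (240 * s) ≤ c * (d : ℝ) ^ 3 := by gcongr
      _ < _ := h7
      _ ≤ _ := by gcongr
  have h11 : (2 : ℝ) ^ (2 * s) * 2 ^ (206 * s + 200) = 2 ^ 200 * 2 ^ (208 * s) := by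
    rw [← pow_add, ← pow_add]; congr 1; ring
  have h12 : c * (2 : ℝ) ^ (240 * s) = (c * 2 ^ (2 * s)) * 2 ^ (238 * s) := by
    rw [mul_assoc, ← pow_add]; congr 2; ring
  rw [h11, h12] at h10
  have h13 : (2 : ℝ) ^ (208 * s) ≤ 2 ^ (238 * s) := pow_le_pow_right₀ (by norm_num) (by omega)
  have h14 : (2 : ℝ) ^ 200 * 2 ^ (208 * s) ≤ (c * 2 ^ (2 * s)) * 2 ^ (238 * s) := by gcongr
  linarith

end Pool.Agent.FIB
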