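import Mathlib
import Pool.Agent.FIB.Basic

set_option autoImplicit false

/-! FIB (MP_36674f_nt): overlap of two strips on the circle. -/

namespace Pool.Agent.FIB

open MeasureTheory Finset

/-- `{γ : ‖a + h γ‖ < ρ}` -/
def A (a : ℝ) (h : ℕ) (ρ : ℝ) : Set UnitAddCircle :=
  {γ | ‖(a : UnitAddCircle) + h • γ‖ < ρ}

theorem isOpen_A (a : ℝ) (h : ℕ) (ρ : ℝ) : IsOpen (A a h ρ) := by
  apply isOpen_lt
  · fun_prop
  · fun_prop

theorem measurableSet_A (a : ℝ) (h : ℕ) (ρ : ℝ) : MeasurableSet (A a h ρ) :=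
  (isOpen_A a h ρ).measurableSet

theorem mem_A_coe (a : ℝ) (h : ℕ) (ρ g : ℝ) :
    ((g : ℝ) : UnitAddCircle) ∈ A a h ρ ↔ nn (a + h * g) < ρ := by
  unfold A nn
  simp only [Set.mem_ofPred_eq]
  rw [show ((a + h * g : ℝ) : UnitAddCircle) = (a : UnitAddCircle) + h • (g : UnitAddCircle) by
    rw [AddCircle.coe_add, ← AddCircle.coe_nsmul, nsmul_eq_mul]]

theorem mp_affine (a : ℝ) {h : ℕ} (hh : 0 < h) :
    MeasurePreserving (fun γ : UnitAddCircle => (a : UnitAddCircle) + h • γ) volume volume := by
  have h1 : MeasurePreserving (fun γ : UnitAddCircle => h • γ) volume volume := by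
    rcases Nat.lt_or_ge 1 h with h1 | h1
    · exact (AddCircle.ergodic_nsmul (T := (1 : ℝ)) h1).toMeasurePreserving
    · have : h = 1 := by omega
      subst this
      simp only [one_smul]
      exact MeasurePreserving.id (volume : Measure UnitAddCircle)
  exact (measurePreserving_add_left volume (a : UnitAddCircle)).comp h1

theorem vol_A_le (a : ℝ) {h : ℕ} (hh : 0 < h) (ρ : ℝ) :
    volume (A a h ρ) ≤ ENNReal.ofReal (2 * ρ) := by
  have h1 : A a h ρ = (fun γ : UnitAddCircle => (a : UnitAddCircle) + h • γ) ⁻¹'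
      (Metric.ball 0 ρ) := by
    ext γ; simp [A]
  rw [h1, (mp_affine a hh).measure_preimage Metric.isOpen_ball.measurableSet.nullMeasurableSet]
  refine (measure_mono Metric.ball_subset_closedBall).trans ?_
  rw [AddCircle.volume_closedBall]
  exact ENNReal.ofReal_le_ofReal (min_le_right _ _)

theorem le_vol_A (a : ℝ) {h : ℕ} (hh : 0 < h) {ρ : ℝ} (h0 : 0 < ρ) (h1 : ρ ≤ 1) :
    ENNReal.ofReal ρ ≤ volume (A a h ρ) := by
  have h2 : A a h ρ = (fun γ : UnitAddCircle => (a : UnitAddCircle) + h • γ) ⁻¹'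
      (Metric.ball 0 ρ) := by
    ext γ; simp [A]
  rw [h2, (mp_affine a hh).measure_preimage Metric.isOpen_ball.measurableSet.nullMeasurableSet]
  refine le_trans ?_ (measure_mono (Metric.closedBall_subset_ball (half_lt_self h0)))
  rw [AddCircle.volume_closedBall]
  apply ENNReal.ofReal_le_ofReal
  rw [le_min_iff]
  constructor <;> linarith

theorem card_int_le (F : Finset ℤ) (lo hi : ℝ) (h : ∀ z ∈ F, lo < z ∧ (z : ℝ) < hi)
    (hl : lo ≤ hi) : (F.card : ℝ) ≤ hi - lo + 1 := by
  have h1 : F ⊆ Finset.Icc (⌊lo⌋ + 1) (⌈hi⌉ - 1) := by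
    intro z hz
    obtain ⟨a, b⟩ := h z hz
    rw [Finset.mem_Icc]
    constructor
    · have := Int.floor_lt.mpr a
      omega
    · have := Int.lt_ceil.mpr b
      omega
  have h2 := Finset.card_le_card h1
  rw [Int.card_Icc] at h2
  have h3 : (F.card : ℝ) ≤ ((⌈hi⌉ - 1 + 1 - (⌊lo⌋ + 1)).toNat : ℝ) := by exact_mod_cast h2
  refine h3.trans ?_
  have e1 := Int.ceil_lt_add_one hi
  have e2 := Int.lt_floor_add_one lo
  rcases le_or_gt 0 (⌈hi⌉ - 1 + 1 - (⌊lo⌋ + 1)) with h4 | h4
  · have h5 : (((⌈hi⌉ - 1 + 1 - (⌊lo⌋ + 1)).toNat : ℤ) : ℝ) =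
        ((⌈hi⌉ - 1 + 1 - (⌊lo⌋ + 1) : ℤ) : ℝ) := by rw [Int.toNat_of_nonneg h4]
    rw [Int.cast_natCast] at h5
    rw [h5]
    push_cast
    linarith
  · rw [Int.toNat_of_nonpos h4.le]
    simp only [Nat.cast_zero]
    linarith

/-- among the points `x + c t / k`, `t < k`, at most `2 ρ k + 1` are `ρ`-close to `ℤ` -/
theorem count_le {c k : ℕ} (hk : 0 < k) (hc : Nat.Coprime c k) (x ρ : ℝ) (hρ : 0 < ρ) :
    (((Finset.range k).filter (fun t : ℕ => nn (x + c * ((t : ℝ) / k)) < ρ)).card : ℝ)
      ≤ 2 * ρ * k + 1 := by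
  classical
  have hk' : (0 : ℝ) < k := by exact_mod_cast hk
  choose p hp using fun t : ℕ => exists_int (x + c * (t / k : ℝ))
  set f : ℕ → ℤ := fun t => c * t - k * p t with hf
  have hinj : Set.InjOn f ((Finset.range k).filter (fun t : ℕ => nn (x + c * ((t : ℝ) / k)) < ρ)) := by
    intro t ht t' ht' he
    simp only [Finset.coe_filter, Finset.mem_range, Set.mem_ofPred_eq] at ht ht'
    simp only [hf] at he
    have h1 : (k : ℤ) ∣ c * ((t : ℤ) - t') := ⟨p t - p t', by linarith⟩
    have h2 : (k : ℤ) ∣ (t : ℤ) - t' :=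
      (Nat.isCoprime_iff_coprime.mpr hc.symm).dvd_of_dvd_mul_left h1
    have h3 : (t : ℤ) - t' = 0 := by
      apply Int.eq_zero_of_abs_lt_dvd h2
      rw [abs_lt]; constructor <;> omega
    omega
  rw [← Finset.card_image_of_injOn hinj]
  have := card_int_le (((Finset.range k).filter (fun t : ℕ => nn (x + c * ((t : ℝ) / k)) < ρ)).image f)
    (-(k * x) - ρ * k) (-(k * x) + ρ * k) ?_ ?_
  · linarith
  · intro z hz
    rw [Finset.mem_image] at hz
    obtain ⟨t, ht, rfl⟩ := hz
    rw [Finset.mem_filter] at ht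
    have h1 := ht.2
    rw [hp t, abs_lt] at h1
    simp only [hf]
    push_cast
    have e : (c : ℝ) * t = k * (c * (t / k)) := by field_simp
    constructor
    · have := mul_lt_mul_of_pos_left h1.1 hk'
      nlinarith
    · have := mul_lt_mul_of_pos_left h1.2 hk'
      nlinarith
  · have : 0 ≤ ρ * k := by positivity
    linarith

theorem overlap_one {h k : ℕ} (hk : 0 < k) (hc : Nat.Coprime h k) (a b ρ ρ' : ℝ)
    (hρ : 0 < ρ) (hρ' : 0 < ρ') :
    volume (A a h ρ ∩ A b k ρ') ≤ ENNReal.ofReal (4 * ρ * ρ' + 2 * ρ' / k) := by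
  classical
  have hk' : (0 : ℝ) < k := by exact_mod_cast hk
  set S : Set UnitAddCircle := A a h ρ ∩ A b k ρ' with hS
  have hSm : MeasurableSet S := (measurableSet_A _ _ _).inter (measurableSet_A _ _ _)
  set St : ℕ → Set UnitAddCircle := fun t => (fun γ => γ + (((t / k : ℝ)) : UnitAddCircle)) ⁻¹' S
    with hSt
  have h1 : ∀ t, volume (St t) = volume S := fun t =>
    measure_preimage_add_right volume _ S
  have hStm : ∀ t, MeasurableSet (St t) := fun t =>
    (measurable_add_const _) hSm
  have h2 : (k : ENNReal) * volume S = ∑ t ∈ Finset.range k, volume (St t) := by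
    simp [h1]
  have h3 : ∑ t ∈ Finset.range k, volume (St t) ≤
      ENNReal.ofReal (2 * ρ * k + 1) * volume (A b k ρ') := by
    calc ∑ t ∈ Finset.range k, volume (St t)
        = ∑ t ∈ Finset.range k, ∫⁻ γ, (St t).indicator 1 γ := by
          refine Finset.sum_congr rfl fun t _ => ?_
          rw [lintegral_indicator_one (hStm t)]
      _ = ∫⁻ γ, ∑ t ∈ Finset.range k, (St t).indicator 1 γ := by
          rw [lintegral_finsetSum]
          intro t _
          exact measurable_one.indicator (hStm t)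
      _ ≤ ∫⁻ γ, (A b k ρ').indicator (fun _ => ENNReal.ofReal (2 * ρ * k + 1)) γ := by
          apply lintegral_mono
          intro γ
          obtain ⟨g, rfl⟩ : ∃ g : ℝ, (g : UnitAddCircle) = γ := QuotientAddGroup.mk_surjective γ
          have hmem : ∀ t : ℕ, (g : UnitAddCircle) ∈ St t →
              nn ((a + h * g) + h * (t / k)) < ρ ∧ (g : UnitAddCircle) ∈ A b k ρ' := by
            intro t ht
            simp only [hSt, Set.mem_preimage, hS] at ht
            rw [← AddCircle.coe_add, Set.mem_inter_iff, mem_A_coe, mem_A_coe] at ht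
            refine ⟨?_, ?_⟩
            · have := ht.1
              rwa [show a + (h : ℝ) * (g + t / k) = (a + h * g) + h * (t / k) by ring] at this
            · rw [mem_A_coe]
              have := ht.2
              rw [show b + (k : ℝ) * (g + t / k) = (b + k * g) + ((t : ℤ) : ℝ) by
                push_cast; field_simp; ring, nn_add_int] at this
              exact this
          by_cases hA : (g : UnitAddCircle) ∈ A b k ρ'
          · show ∑ t ∈ Finset.range k, (St t).indicator (1 : UnitAddCircle → ENNReal) g ≤ _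
            rw [Set.indicator_of_mem hA]
            have e : ∑ t ∈ Finset.range k, (St t).indicator (1 : UnitAddCircle → ENNReal) g
                = (((Finset.range k).filter (fun t : ℕ => (g : UnitAddCircle) ∈ St t)).card : ENNReal) := by
              rw [Finset.card_filter]
              push_cast
              refine Finset.sum_congr rfl fun t _ => ?_
              by_cases ht : (g : UnitAddCircle) ∈ St t
              · rw [Set.indicator_of_mem ht]; simp [ht]
              · rw [Set.indicator_of_notMem ht]; simp [ht]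
            rw [e]
            have e2 : ((Finset.range k).filter (fun t : ℕ => (g : UnitAddCircle) ∈ St t)).card ≤
                ((Finset.range k).filter (fun t : ℕ => nn ((a + h * g) + h * ((t : ℝ) / k)) < ρ)).card := by
              apply Finset.card_le_card
              intro t ht
              rw [Finset.mem_filter] at ht ⊢
              exact ⟨ht.1, (hmem t ht.2).1⟩
            have e3 := count_le hk hc (a + h * g) ρ hρ
            have e4 : (((Finset.range k).filter (fun t : ℕ => (g : UnitAddCircle) ∈ St t)).card : ℝ)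
                ≤ 2 * ρ * k + 1 := le_trans (by exact_mod_cast e2) e3
            rw [← ENNReal.ofReal_natCast]
            exact ENNReal.ofReal_le_ofReal e4
          · show ∑ t ∈ Finset.range k, (St t).indicator (1 : UnitAddCircle → ENNReal) g ≤ _
            rw [Set.indicator_of_notMem hA]
            refine le_of_eq (Finset.sum_eq_zero fun t _ => ?_)
            rw [Set.indicator_of_notMem]
            intro ht
            exact hA (hmem t ht).2
      _ = ENNReal.ofReal (2 * ρ * k + 1) * volume (A b k ρ') := by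
          rw [lintegral_indicator_const (measurableSet_A _ _ _)]
  have h4 : (k : ENNReal) * volume S ≤ ENNReal.ofReal (2 * ρ * k + 1) * ENNReal.ofReal (2 * ρ') := by
    rw [h2]
    refine h3.trans ?_
    gcongr
    exact vol_A_le b hk ρ'
  rw [← ENNReal.ofReal_mul (by positivity)] at h4
  have h5 : volume S ≤ ENNReal.ofReal ((2 * ρ * k + 1) * (2 * ρ')) / k := by
    rw [ENNReal.le_div_iff_mul_le (Or.inl (by exact_mod_cast hk.ne')) (Or.inl (by simp)), mul_comm]
    exact h4
  refine h5.trans ?_
  rw [← ENNReal.ofReal_natCast, ← ENNReal.ofReal_div_of_pos hk']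
  apply ENNReal.ofReal_le_ofReal
  apply le_of_eq
  field_simp
  ring

/-- the overlap inequality for coprime frequencies -/
theorem overlap_coprime {h k : ℕ} (hh : 0 < h) (hk : 0 < k) (hc : Nat.Coprime h k)
    (a b ρ ρ' : ℝ) (hρ : 0 < ρ) (hρ' : 0 < ρ') :
    volume (A a h ρ ∩ A b k ρ') ≤ ENNReal.ofReal (4 * ρ * ρ' +
      2 * min (ρ / h) (ρ' / k) * (if nn (k * a - h * b) < k * ρ + h * ρ' then 1 else 0)) := by
  split_ifs with hcond
  · rw [mul_one]
    rcases min_cases (ρ / h) (ρ' / k) with ⟨e, _⟩ | ⟨e, _⟩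
    · rw [e]
      have := overlap_one hh hc.symm b a ρ' ρ hρ' hρ
      rw [Set.inter_comm]
      refine this.trans (ENNReal.ofReal_le_ofReal (le_of_eq ?_))
      ring
    · rw [e]
      refine (overlap_one hk hc a b ρ ρ' hρ hρ').trans (ENNReal.ofReal_le_ofReal (le_of_eq ?_))
      ring
  · have : A a h ρ ∩ A b k ρ' = ∅ := by
      rw [Set.eq_empty_iff_forall_notMem]
      intro γ hγ
      obtain ⟨g, rfl⟩ : ∃ g : ℝ, (g : UnitAddCircle) = γ := QuotientAddGroup.mk_surjective γ
      rw [Set.mem_inter_iff, mem_A_coe, mem_A_coe] at hγ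
      apply hcond
      have h1 : (k : ℝ) * a - h * b = k * (a + h * g) - h * (b + k * g) := by ring
      rw [h1]
      have hh' : (0 : ℝ) < h := by exact_mod_cast hh
      have hk' : (0 : ℝ) < k := by exact_mod_cast hk
      calc nn (k * (a + h * g) - h * (b + k * g))
          ≤ nn (k * (a + h * g)) + nn (h * (b + k * g)) := nn_sub _ _
        _ ≤ k * nn (a + h * g) + h * nn (b + k * g) :=
            add_le_add (nn_nat_mul _ _) (nn_nat_mul _ _)
        _ < k * ρ + h * ρ' :=
            add_lt_add (mul_lt_mul_of_pos_left hγ.1 hk') (mul_lt_mul_of_pos_left hγ.2 hh')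
    rw [this]
    simp

/-- overlap for general frequencies `d h`, `d k` with `h, k` coprime -/
theorem overlap_gcd {d h k : ℕ} (hd : 0 < d) (hh : 0 < h) (hk : 0 < k) (hc : Nat.Coprime h k)
    (a b ρ ρ' : ℝ) (hρ : 0 < ρ) (hρ' : 0 < ρ') :
    volume (A a (d * h) ρ ∩ A b (d * k) ρ') ≤ ENNReal.ofReal (4 * ρ * ρ' +
      2 * min (ρ / h) (ρ' / k) * (if nn (k * a - h * b) < k * ρ + h * ρ' then 1 else 0)) := by
  have h1 : A a (d * h) ρ ∩ A b (d * k) ρ' =
      (fun γ : UnitAddCircle => ((0 : ℝ) : UnitAddCircle) + d • γ) ⁻¹' (A a h ρ ∩ A b k ρ') := by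
    ext γ
    simp only [A, Set.mem_inter_iff, Set.mem_ofPred_eq, Set.mem_preimage, AddCircle.coe_zero,
      zero_add]
    rw [show (d * h) • γ = h • (d • γ) by rw [mul_comm d h, mul_smul],
      show (d * k) • γ = k • (d • γ) by rw [mul_comm d k, mul_smul]]
  rw [h1, (mp_affine 0 hd).measure_preimage
    ((measurableSet_A _ _ _).inter (measurableSet_A _ _ _)).nullMeasurableSet]
  exact overlap_coprime hh hk hc a b ρ ρ' hρ hρ'

end Pool.Agent.FIB
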