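import Mathlib

set_option autoImplicit false

/-! FIB (MP_36674f_nt): the total weight of coprime pairs. -/

namespace Pool.Agent.FIB

open Finset

/-- pairs `(m, h)`, `1 ≤ m < 2^(j/100)`, `2^j ≤ h < 2^(j+1)`, coprime -/
def V (j : ℕ) : Finset (ℕ × ℕ) :=
  ((Ico 1 (2 ^ (j / 100))) ×ˢ (Ico (2 ^ j) (2 ^ (j + 1)))).filter (fun v => Nat.Coprime v.1 v.2)

theorem count_coprime_blocks (m n t : ℕ) :
    ((Ico n (n + t * m)).filter (fun x => Nat.Coprime m x)).card = t * m.totient := by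
  induction t with
  | zero => simp
  | succ t ih =>
    have h1 : Ico n (n + (t + 1) * m) = Ico n (n + t * m) ∪ Ico (n + t * m) (n + t * m + m) := by
      rw [Finset.Ico_union_Ico_eq_Ico (by omega) (by omega)]
      congr 1
      ring
    rw [h1, Finset.filter_union, Finset.card_union_of_disjoint, ih,
      Nat.filter_coprime_Ico_eq_totient]
    · ring
    · apply Finset.disjoint_filter_filter
      exact Finset.Ico_disjoint_Ico_consecutive _ _ _

theorem count_coprime_lower {m j : ℕ} (hm : 1 ≤ m) (hmj : 2 * m ≤ 2 ^ j) :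
    (2 : ℝ) ^ j / (2 * m) * m.totient ≤
      ((Ico (2 ^ j) (2 ^ (j + 1))).filter (fun x => Nat.Coprime m x)).card := by
  have h1 := count_coprime_blocks m (2 ^ j) (2 ^ j / m)
  have h2 : ((Ico (2 ^ j) (2 ^ j + 2 ^ j / m * m)).filter (fun x => Nat.Coprime m x)).card ≤
      ((Ico (2 ^ j) (2 ^ (j + 1))).filter (fun x => Nat.Coprime m x)).card := by
    apply Finset.card_le_card
    apply Finset.filter_subset_filter
    apply Finset.Ico_subset_Ico_right
    have := Nat.div_mul_le_self (2 ^ j) m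
    rw [pow_succ]; omega
  rw [h1] at h2
  have h3 : ((2 ^ j / m * m.totient : ℕ) : ℝ) ≤
      ((Ico (2 ^ j) (2 ^ (j + 1))).filter (fun x => Nat.Coprime m x)).card := by
    exact_mod_cast h2
  refine le_trans ?_ h3
  push_cast
  have hm' : (1 : ℝ) ≤ m := by exact_mod_cast hm
  gcongr
  rw [div_le_iff₀ (by positivity)]
  have h4 : 2 ^ j < 2 ^ j / m * m + m := Nat.lt_div_mul_add (by omega)
  have h5 : (2 : ℝ) ^ j < (2 ^ j / m : ℕ) * m + m := by exact_mod_cast h4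
  have h6 : 2 * (m : ℝ) ≤ 2 ^ j := by exact_mod_cast hmj
  linarith

theorem sum_inv_sq_le (M : ℕ) : ∑ n ∈ Ico 1 M, (1 : ℝ) / (n : ℝ) ^ 2 ≤ 2 := by
  have key : ∀ M : ℕ, 1 ≤ M → ∑ n ∈ Ico 1 (M + 1), (1 : ℝ) / (n : ℝ) ^ 2 ≤ 2 - 1 / M := by
    intro M hM
    induction M, hM using Nat.le_induction with
    | base => simp; norm_num
    | succ k hk ih =>
      rw [Finset.sum_Ico_succ_top (by omega)]
      have hk' : (1 : ℝ) ≤ k := by exact_mod_cast hk
      refine (add_le_add_left ih _).trans ?_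
      push_cast
      have h : (1 : ℝ) / (k + 1) ^ 2 ≤ 1 / k - 1 / (k + 1) := by
        rw [div_sub_div _ _ (by positivity) (by positivity),
          div_le_div_iff₀ (by positivity) (by positivity)]
        nlinarith
      linarith
  rcases Nat.lt_or_ge M 2 with h | h
  · have : Ico 1 M = ∅ := by
      rw [Finset.Ico_eq_empty_iff]; omega
    rw [this]; simp
  · obtain ⟨k, rfl⟩ : ∃ k, M = k + 1 := ⟨M - 1, by omega⟩
    refine (key k (by omega)).trans ?_
    have : (0 : ℝ) ≤ 1 / k := by positivity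
    linarith

theorem harmonic_Ico (M : ℕ) : ∑ n ∈ Ico 1 (M + 1), (1 : ℝ) / n = (harmonic M : ℝ) := by
  rw [harmonic_eq_sum_Icc]
  push_cast
  rw [show Ico 1 (M + 1) = Icc 1 M by
    ext x; simp only [mem_Ico, mem_Icc]; omega]
  exact Finset.sum_congr rfl fun x _ => by rw [one_div]

theorem log_le_sum {M : ℕ} (hM : 1 ≤ M) : Real.log M ≤ ∑ n ∈ Ico 1 M, (1 : ℝ) / n := by
  obtain ⟨k, rfl⟩ : ∃ k, M = k + 1 := ⟨M - 1, by omega⟩
  rw [harmonic_Ico]
  exact_mod_cast log_add_one_le_harmonic k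

theorem sum_le_one_add (s : ℕ) : ∑ n ∈ Ico (1 : ℕ) (2 ^ s), (1 : ℝ) / n ≤ 1 + s := by
  obtain ⟨k, hk⟩ : ∃ k, 2 ^ s = k + 1 := ⟨2 ^ s - 1, by have := Nat.one_le_two_pow (n := s); omega⟩
  rw [hk, harmonic_Ico]
  refine (harmonic_le_one_add_log k).trans ?_
  have h1 : Real.log k ≤ Real.log ((2 : ℝ) ^ s) := by
    rcases Nat.eq_zero_or_pos k with h | h
    · subst h
      simp only [CharP.cast_eq_zero, Real.log_zero]
      exact Real.log_nonneg (one_le_pow₀ (by norm_num))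
    · apply Real.log_le_log (by exact_mod_cast h)
      have : k ≤ 2 ^ s := by omega
      exact_mod_cast this
  rw [Real.log_pow] at h1
  have h2 : Real.log 2 ≤ 1 := by
    have := Real.log_two_lt_d9
    linarith
  have h3 : (s : ℝ) * Real.log 2 ≤ s * 1 := by gcongr
  linarith

theorem totient_sum_lower {M : ℕ} (hM : 1 ≤ M) :
    Real.log M / 2 ≤ ∑ m ∈ Ico 1 M, (m.totient : ℝ) / (m : ℝ) ^ 2 := by
  have h1 : ∑ l ∈ Ico 1 M, (1 : ℝ) / l ≤
      (∑ m ∈ Ico 1 M, (m.totient : ℝ) / (m : ℝ) ^ 2) * ∑ n ∈ Ico 1 M, (1 : ℝ) / (n : ℝ) ^ 2 := by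
    rw [Finset.sum_mul_sum, ← Finset.sum_product']
    have h2 : ∀ l ∈ Ico 1 M, (1 : ℝ) / l = ∑ p ∈ l.divisorsAntidiagonal,
        ((p.1.totient : ℝ) / (p.1 : ℝ) ^ 2) * (1 / (p.2 : ℝ) ^ 2) := by
      intro l hl
      rw [mem_Ico] at hl
      have hl' : (0 : ℝ) < l := by exact_mod_cast hl.1
      have h3 : ∀ p ∈ l.divisorsAntidiagonal,
          ((p.1.totient : ℝ) / (p.1 : ℝ) ^ 2) * (1 / (p.2 : ℝ) ^ 2) =
            (p.1.totient : ℝ) / (l : ℝ) ^ 2 := by
        intro p hp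
        rw [Nat.mem_divisorsAntidiagonal] at hp
        rw [← hp.1]
        push_cast
        rw [mul_pow, div_mul_div_comm, mul_one]
      rw [Finset.sum_congr rfl h3, ← Finset.sum_div]
      have h4 : ∑ p ∈ l.divisorsAntidiagonal, (p.1.totient : ℝ) = l := by
        rw [Nat.sum_divisorsAntidiagonal (fun a _ => (a.totient : ℝ))]
        have := Nat.sum_totient l
        exact_mod_cast this
      rw [h4]
      field_simp
    rw [Finset.sum_congr rfl h2, ← Finset.sum_biUnion]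
    · apply Finset.sum_le_sum_of_subset_of_nonneg
      · intro x hx
        rw [mem_biUnion] at hx
        obtain ⟨l, hl, hx⟩ := hx
        rw [mem_Ico] at hl
        rw [Nat.mem_divisorsAntidiagonal] at hx
        obtain ⟨a3, a4⟩ := hx
        simp only [mem_product, mem_Ico]
        have b1 : x.1 ≠ 0 := by rintro h; rw [h] at a3; omega
        have b2 : x.2 ≠ 0 := by rintro h; rw [h] at a3; omega
        have b3 : x.1 ≤ x.1 * x.2 := Nat.le_mul_of_pos_right _ (by omega)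
        have b4 : x.2 ≤ x.1 * x.2 := Nat.le_mul_of_pos_left _ (by omega)
        refine ⟨⟨by omega, by omega⟩, by omega, by omega⟩
      · intro x _ _
        positivity
    · intro l _ l' _ hne
      rw [Function.onFun, Finset.disjoint_left]
      intro x hx hx'
      rw [Nat.mem_divisorsAntidiagonal] at hx hx'
      exact hne (hx.1.symm.trans hx'.1)
  have h2 := sum_inv_sq_le M
  have h3 := log_le_sum hM
  have h4 : (0 : ℝ) ≤ ∑ m ∈ Ico 1 M, (m.totient : ℝ) / (m : ℝ) ^ 2 :=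
    Finset.sum_nonneg fun m _ => by positivity
  have h5 : (∑ m ∈ Ico 1 M, (m.totient : ℝ) / (m : ℝ) ^ 2) *
      ∑ n ∈ Ico 1 M, (1 : ℝ) / (n : ℝ) ^ 2 ≤
      (∑ m ∈ Ico 1 M, (m.totient : ℝ) / (m : ℝ) ^ 2) * 2 := by gcongr
  linarith

/-- upper bound for the total weight -/
theorem weight_upper {j : ℕ} (hj : 2 ≤ j) :
    ∑ v ∈ V j, (1 : ℝ) / (v.1 * 2 ^ j) ≤ j := by
  have h1 : ∑ v ∈ V j, (1 : ℝ) / (v.1 * 2 ^ j) ≤
      ∑ v ∈ (Ico (1 : ℕ) (2 ^ (j / 100))) ×ˢ (Ico ((2 : ℕ) ^ j) (2 ^ (j + 1))), (1 : ℝ) / (v.1 * 2 ^ j) := by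
    apply Finset.sum_le_sum_of_subset_of_nonneg (Finset.filter_subset _ _)
    intro v _ _
    positivity
  refine h1.trans ?_
  rw [Finset.sum_product]
  have h2 : ∀ m ∈ Ico (1 : ℕ) (2 ^ (j / 100)), ∑ h ∈ Ico ((2 : ℕ) ^ j) (2 ^ (j + 1)),
      (1 : ℝ) / (((m, h).1 : ℕ) * 2 ^ j) = 1 / m := by
    intro m hm
    rw [mem_Ico] at hm
    have hm' : (1 : ℝ) ≤ m := by exact_mod_cast hm.1
    simp only
    rw [Finset.sum_const, Nat.card_Ico, show 2 ^ (j + 1) - 2 ^ j = 2 ^ j by rw [pow_succ]; omega,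
      nsmul_eq_mul]
    push_cast
    field_simp
  rw [Finset.sum_congr rfl h2]
  refine (sum_le_one_add (j / 100)).trans ?_
  have : ((j / 100 : ℕ) : ℝ) ≤ (j : ℝ) / 100 := by
    exact_mod_cast Nat.cast_div_le (α := ℝ) (m := j) (n := 100)
  have hj' : (2 : ℝ) ≤ j := by exact_mod_cast hj
  linarith

/-- lower bound for the total weight -/
theorem weight_lower {j : ℕ} (hj : 100 ≤ j) :
    (j : ℝ) / 1200 ≤ ∑ v ∈ V j, (1 : ℝ) / (v.1 * 2 ^ j) := by
  have h1 : ∑ v ∈ V j, (1 : ℝ) / (v.1 * 2 ^ j) = ∑ m ∈ Ico (1 : ℕ) (2 ^ (j / 100)),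
      (1 / (m * 2 ^ j)) * (((Ico (2 ^ j) (2 ^ (j + 1))).filter
        (fun x => Nat.Coprime m x)).card : ℝ) := by
    unfold V
    rw [Finset.sum_filter, Finset.sum_product]
    refine Finset.sum_congr rfl fun m _ => ?_
    simp only
    rw [← Finset.sum_filter, Finset.sum_const, nsmul_eq_mul, mul_comm]
  rw [h1]
  set s := j / 100 with hs
  have hs1 : 1 ≤ s := by omega
  have h2 : ∀ m ∈ Ico (1 : ℕ) (2 ^ s), ((m.totient : ℝ) / (m : ℝ) ^ 2) / 2 ≤ (1 / (m * 2 ^ j)) *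
      (((Ico (2 ^ j) (2 ^ (j + 1))).filter (fun x => Nat.Coprime m x)).card : ℝ) := by
    intro m hm
    rw [mem_Ico] at hm
    have hm' : (1 : ℝ) ≤ m := by exact_mod_cast hm.1
    have hmj : 2 * m ≤ 2 ^ j := by
      have a1 : 2 ^ (s + 1) ≤ 2 ^ j := Nat.pow_le_pow_right (by norm_num) (by omega)
      rw [pow_succ] at a1
      omega
    have := count_coprime_lower hm.1 hmj
    calc ((m.totient : ℝ) / (m : ℝ) ^ 2) / 2
        = (1 / (m * 2 ^ j)) * ((2 : ℝ) ^ j / (2 * m) * m.totient) := by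
          field_simp
      _ ≤ _ := by gcongr
  refine le_trans ?_ (Finset.sum_le_sum h2)
  rw [← Finset.sum_div]
  have h3 := totient_sum_lower (M := 2 ^ s) Nat.one_le_two_pow
  have h4 : Real.log ((2 ^ s : ℕ) : ℝ) = s * Real.log 2 := by
    push_cast; rw [Real.log_pow]
  rw [h4] at h3
  have h5 : (0.693 : ℝ) ≤ Real.log 2 := by
    have := Real.log_two_gt_d9; linarith
  have h6 : (j : ℝ) ≤ 200 * s := by
    have : j ≤ 200 * s := by omega
    exact_mod_cast this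
  have h7 : (s : ℝ) * 0.693 ≤ s * Real.log 2 := by gcongr
  linarith

end Pool.Agent.FIB
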