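import Mathlib
import Pool.Agent.FIB.Overlap
import Pool.Agent.FIB.Near
import Pool.Agent.FIB.Totient

set_option autoImplicit false

/-! FIB (MP_36674f_nt): the sum of the pairwise overlaps at the scales `j ≤ j'`. -/

namespace Pool.Agent.FIB

open Finset MeasureTheory Classical

/-- radius -/
noncomputable def rad (δ : ℕ → ℝ) (j m : ℕ) : ℝ := δ j / (m * 2 ^ j)

/-- the strip of `v = (m, h)` at scale `j` -/
noncomputable def Av (α : ℝ) (δ : ℕ → ℝ) (j : ℕ) (v : ℕ × ℕ) : Set UnitAddCircle :=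
  A (v.1 * α) v.2 (rad δ j v.1)

noncomputable def eta (δ : ℕ → ℝ) (j j' m m' d : ℕ) : ℝ :=
  2 * (2 ^ j' * rad δ j m + 2 ^ j * rad δ j' m') / d

noncomputable def mn (δ : ℕ → ℝ) (j j' m m' : ℕ) : ℝ :=
  min (rad δ j m / 2 ^ j) (rad δ j' m' / 2 ^ j')

noncomputable def fT (α : ℝ) (δ : ℕ → ℝ) (j j' m m' : ℕ) (x : (_ : ℕ) × ℕ × ℕ) : ℝ :=
  2 * x.1 * mn δ j j' m m' *
    (if res α m m' x.2.1 x.2.2 (eta δ j j' m m' x.1) ∧ x.2.2 * m ≠ x.2.1 * m' then 1 else 0)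

theorem mem_V {j : ℕ} {v : ℕ × ℕ} (hv : v ∈ V j) :
    1 ≤ v.1 ∧ v.1 < 2 ^ (j / 100) ∧ 2 ^ j ≤ v.2 ∧ v.2 < 2 ^ (j + 1) ∧ Nat.Coprime v.1 v.2 := by
  unfold V at hv
  rw [mem_filter, mem_product, mem_Ico, mem_Ico] at hv
  exact ⟨hv.1.1.1, hv.1.1.2, hv.1.2.1, hv.1.2.2, hv.2⟩

theorem rad_pos {δ : ℕ → ℝ} {j m : ℕ} (hδ : 0 < δ j) (hm : 1 ≤ m) : 0 < rad δ j m := by
  have : (0 : ℝ) < m := by exact_mod_cast hm
  unfold rad; positivity

theorem pointwise (α : ℝ) (δ : ℕ → ℝ) (j j' : ℕ) (hδ : 0 < δ j) (hδ' : 0 < δ j')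
    (v v' : ℕ × ℕ) (hv : v ∈ V j) (hv' : v' ∈ V j') (hne : v ≠ v') :
    volume.real (Av α δ j v ∩ Av α δ j' v') ≤ 4 * rad δ j v.1 * rad δ j' v'.1 +
      fT α δ j j' v.1 v'.1 ⟨Nat.gcd v.2 v'.2, v.2 / Nat.gcd v.2 v'.2, v'.2 / Nat.gcd v.2 v'.2⟩ := by
  obtain ⟨m, h⟩ := v
  obtain ⟨m', k⟩ := v'
  obtain ⟨hm, -, hh, hh2, hcop⟩ := mem_V hv
  obtain ⟨hm', -, hk, hk2, hcop'⟩ := mem_V hv'
  simp only at hm hh hh2 hcop hm' hk hk2 hcop' ⊢
  have h0 : 0 < h := lt_of_lt_of_le (by positivity) hh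
  have k0 : 0 < k := lt_of_lt_of_le (by positivity) hk
  set d := Nat.gcd h k with hd
  have hd0 : 0 < d := Nat.gcd_pos_of_pos_left _ h0
  obtain ⟨h', hh'⟩ : d ∣ h := Nat.gcd_dvd_left _ _
  obtain ⟨k', hk'⟩ : d ∣ k := Nat.gcd_dvd_right _ _
  have e1 : h / d = h' := by rw [hh']; exact Nat.mul_div_cancel_left _ hd0
  have e2 : k / d = k' := by rw [hk']; exact Nat.mul_div_cancel_left _ hd0
  have hcc : Nat.Coprime h' k' := by
    rw [← e1, ← e2]; exact Nat.coprime_div_gcd_div_gcd hd0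
  have h'0 : 0 < h' := Nat.pos_of_ne_zero (by rintro rfl; omega)
  have k'0 : 0 < k' := Nat.pos_of_ne_zero (by rintro rfl; omega)
  have hρ := rad_pos (δ := δ) (j := j) hδ hm
  have hρ' := rad_pos (δ := δ) (j := j') hδ' hm'
  set ρ := rad δ j m with hρdef
  set ρ' := rad δ j' m' with hρdef'
  have key := overlap_gcd hd0 h'0 k'0 hcc (m * α) (m' * α) ρ ρ' hρ hρ'
  rw [← hh', ← hk'] at key
  have hd' : (0 : ℝ) < d := by exact_mod_cast hd0
  have h'1 : (0 : ℝ) < h' := by exact_mod_cast h'0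
  have k'1 : (0 : ℝ) < k' := by exact_mod_cast k'0
  have hmn0 : 0 < mn δ j j' m m' := by
    unfold mn; rw [lt_min_iff]; constructor <;> positivity
  -- the right-hand side
  set X : ℝ := 4 * ρ * ρ' + 2 * min (ρ / h') (ρ' / k') *
    (if nn (k' * (m * α) - h' * (m' * α)) < k' * ρ + h' * ρ' then 1 else 0) with hX
  have hX0 : 0 ≤ X := by rw [hX]; split_ifs <;> positivity
  have h1 : volume.real (Av α δ j (m, h) ∩ Av α δ j' (m', k)) ≤ X := by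
    rw [Measure.real]
    exact ENNReal.toReal_le_of_le_ofReal hX0 key
  refine h1.trans ?_
  rw [hX, e1, e2]
  have hmin : min (ρ / h') (ρ' / k') ≤ d * mn δ j j' m m' := by
    unfold mn
    rw [mul_min_of_nonneg _ _ hd'.le]
    apply min_le_min
    · rw [← mul_div_assoc, div_le_div_iff₀ h'1 (by positivity)]
      have : (2 : ℝ) ^ j ≤ d * h' := by rw [hh'] at hh; exact_mod_cast hh
      nlinarith
    · rw [← mul_div_assoc, div_le_div_iff₀ k'1 (by positivity)]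
      have : (2 : ℝ) ^ j' ≤ d * k' := by rw [hk'] at hk; exact_mod_cast hk
      nlinarith
  have hprop : k' * m ≠ h' * m' := by
    intro he
    have b1 : h' ∣ m := by
      have : h' ∣ k' * m := ⟨m', he⟩
      exact hcc.dvd_of_dvd_mul_left this
    have b2 : k' ∣ m' := by
      have : k' ∣ h' * m' := ⟨m, he.symm⟩
      exact hcc.symm.dvd_of_dvd_mul_left this
    have b3 : h' = 1 := Nat.eq_one_of_dvd_coprimes hcop b1 ⟨d, by rw [hh']; ring⟩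
    have b4 : k' = 1 := Nat.eq_one_of_dvd_coprimes hcop' b2 ⟨d, by rw [hk']; ring⟩
    subst b3
    subst b4
    apply hne
    rw [Prod.mk.injEq]
    constructor
    · simpa using he
    · omega
  gcongr 4 * ρ * ρ' + ?_
  unfold fT
  simp only
  by_cases hc : nn (k' * (m * α) - h' * (m' * α)) < k' * ρ + h' * ρ'
  · have hres : res α m m' h' k' (eta δ j j' m m' d) := by
      unfold res
      refine hc.trans_le ?_
      unfold eta
      rw [le_div_iff₀ hd']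
      have c1 : (d : ℝ) * k' ≤ 2 ^ (j' + 1) := by rw [hk'] at hk2; exact_mod_cast hk2.le
      have c2 : (d : ℝ) * h' ≤ 2 ^ (j + 1) := by rw [hh'] at hh2; exact_mod_cast hh2.le
      rw [pow_succ] at c1 c2
      nlinarith
    rw [if_pos hc, if_pos ⟨hres, hprop⟩, mul_one, mul_one, mul_assoc]
    gcongr
  · rw [if_neg hc, mul_zero]
    split_ifs <;> positivity

/-- bound of the inner sum over `h`, `k` by a sum over `d` -/
theorem inner_sum (α : ℝ) (δ : ℕ → ℝ) (j j' m m' : ℕ) (hmn : 0 ≤ mn δ j j' m m')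
    (N : ℕ → ℝ) (hN0 : ∀ d, 0 ≤ N d)
    (hN : ∀ d, 1 ≤ d → d < 2 ^ (j + 1) → ∀ h ∈ R j d,
      (((R j' d).filter (fun k => res α m m' h k (eta δ j j' m m' d) ∧ k * m ≠ h * m')).card : ℝ)
        ≤ N d) :
    ∑ h ∈ Ico (2 ^ j) (2 ^ (j + 1)), ∑ k ∈ Ico (2 ^ j') (2 ^ (j' + 1)),
      fT α δ j j' m m' ⟨Nat.gcd h k, h / Nat.gcd h k, k / Nat.gcd h k⟩ ≤
    ∑ d ∈ Ico (1 : ℕ) (2 ^ (j + 1)), 6 * 2 ^ j * mn δ j j' m m' * N d := by
  have hf0 : ∀ x, 0 ≤ fT α δ j j' m m' x := by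
    intro x; unfold fT; split_ifs <;> positivity
  rw [← Finset.sum_product']
  set g : ℕ × ℕ → (_ : ℕ) × ℕ × ℕ := fun p =>
    ⟨Nat.gcd p.1 p.2, p.1 / Nat.gcd p.1 p.2, p.2 / Nat.gcd p.1 p.2⟩ with hg
  have hinj : Set.InjOn g (Ico (2 ^ j) (2 ^ (j + 1)) ×ˢ Ico (2 ^ j') (2 ^ (j' + 1)) :
      Finset (ℕ × ℕ)) := by
    intro p _ q _ he
    simp only [hg, Sigma.mk.injEq, heq_eq_eq, Prod.mk.injEq] at he
    obtain ⟨a1, a2, a3⟩ := he
    have b1 : Nat.gcd p.1 p.2 * (p.1 / Nat.gcd p.1 p.2) = p.1 :=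
      Nat.mul_div_cancel' (Nat.gcd_dvd_left _ _)
    have b2 : Nat.gcd p.1 p.2 * (p.2 / Nat.gcd p.1 p.2) = p.2 :=
      Nat.mul_div_cancel' (Nat.gcd_dvd_right _ _)
    have b3 : Nat.gcd q.1 q.2 * (q.1 / Nat.gcd q.1 q.2) = q.1 :=
      Nat.mul_div_cancel' (Nat.gcd_dvd_left _ _)
    have b4 : Nat.gcd q.1 q.2 * (q.2 / Nat.gcd q.1 q.2) = q.2 :=
      Nat.mul_div_cancel' (Nat.gcd_dvd_right _ _)
    rw [a2, a1, b3] at b1
    rw [a3, a1, b4] at b2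
    exact Prod.ext b1.symm b2.symm
  have h1 : ∑ x ∈ Ico (2 ^ j) (2 ^ (j + 1)) ×ˢ Ico (2 ^ j') (2 ^ (j' + 1)),
      fT α δ j j' m m' ⟨Nat.gcd x.1 x.2, x.1 / Nat.gcd x.1 x.2, x.2 / Nat.gcd x.1 x.2⟩ =
      ∑ y ∈ (Ico (2 ^ j) (2 ^ (j + 1)) ×ˢ Ico (2 ^ j') (2 ^ (j' + 1))).image g,
        fT α δ j j' m m' y := by
    rw [Finset.sum_image hinj]
  rw [h1]
  have h2 : (Ico (2 ^ j) (2 ^ (j + 1)) ×ˢ Ico (2 ^ j') (2 ^ (j' + 1))).image g ⊆
      (Ico (1 : ℕ) (2 ^ (j + 1))).sigma (fun d => R j d ×ˢ R j' d) := by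
    intro y hy
    rw [mem_image] at hy
    obtain ⟨p, hp, rfl⟩ := hy
    rw [mem_product, mem_Ico, mem_Ico] at hp
    have p0 : 0 < p.1 := lt_of_lt_of_le (by positivity) hp.1.1
    have d0 : 0 < Nat.gcd p.1 p.2 := Nat.gcd_pos_of_pos_left _ p0
    have b1 : Nat.gcd p.1 p.2 * (p.1 / Nat.gcd p.1 p.2) = p.1 :=
      Nat.mul_div_cancel' (Nat.gcd_dvd_left _ _)
    have b2 : Nat.gcd p.1 p.2 * (p.2 / Nat.gcd p.1 p.2) = p.2 :=
      Nat.mul_div_cancel' (Nat.gcd_dvd_right _ _)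
    rw [mem_sigma, mem_Ico, mem_product]
    simp only [hg]
    rw [mem_R d0, mem_R d0, b1, b2]
    exact ⟨⟨d0, lt_of_le_of_lt (Nat.le_of_dvd p0 (Nat.gcd_dvd_left _ _)) hp.1.2⟩, hp.1, hp.2⟩
  refine (Finset.sum_le_sum_of_subset_of_nonneg h2 (fun x _ _ => hf0 x)).trans ?_
  rw [Finset.sum_sigma]
  apply Finset.sum_le_sum
  intro d hd
  rw [mem_Ico] at hd
  rw [Finset.sum_product]
  have hd' : (0 : ℝ) < d := by exact_mod_cast hd.1
  have h3 : ∀ h ∈ R j d, ∑ k ∈ R j' d, fT α δ j j' m m' ⟨d, (h, k)⟩ ≤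
      2 * d * mn δ j j' m m' * N d := by
    intro h hh
    unfold fT
    simp only
    rw [← Finset.mul_sum]
    have e : ∑ k ∈ R j' d, (if res α m m' h k (eta δ j j' m m' d) ∧ k * m ≠ h * m'
        then (1 : ℝ) else 0) =
        (((R j' d).filter
          (fun k => res α m m' h k (eta δ j j' m m' d) ∧ k * m ≠ h * m')).card : ℝ) := by
      rw [Finset.sum_boole]
    rw [e]
    exact mul_le_mul_of_nonneg_left (hN d hd.1 hd.2 h hh) (by positivity)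
  refine (Finset.sum_le_sum h3).trans ?_
  rw [Finset.sum_const, nsmul_eq_mul]
  have hc := card_R3 hd.1 hd.2
  calc ((R j d).card : ℝ) * (2 * d * mn δ j j' m m' * N d)
      ≤ (3 * 2 ^ j / d) * (2 * d * mn δ j j' m m' * N d) := by
        have := hN0 d
        apply mul_le_mul_of_nonneg_right hc (by positivity)
    _ = 6 * 2 ^ j * mn δ j j' m m' * N d := by
        field_simp
        ring

end Pool.Agent.FIB
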