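import Mathlib
import Pool.Agent.FIB.Pair

set_option autoImplicit false

/-! FIB (MP_36674f_nt): the sum of the pairwise overlaps at the scales `j ≤ j'`, conclusion. -/

namespace Pool.Agent.FIB

open Finset MeasureTheory Classical

theorem sum_inv_le (j : ℕ) : ∑ d ∈ Ico (1 : ℕ) (2 ^ (j + 1)), (1 : ℝ) / d ≤ j + 2 := by
  have := sum_le_one_add (j + 1)
  push_cast at this
  linarith

/-- far scales -/
theorem inner_far (α : ℝ) (δ : ℕ → ℝ) (s j j' m m' : ℕ) (hjj : j + 2 * s ≤ j')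
    (hj : 100 ≤ j) (hm : 1 ≤ m) (hm' : 1 ≤ m') (hδ1 : 64 / (2 : ℝ) ^ s ≤ δ j) (hδ' : 0 < δ j') :
    ∑ h ∈ Ico (2 ^ j) (2 ^ (j + 1)), ∑ k ∈ Ico (2 ^ j') (2 ^ (j' + 1)),
      fT α δ j j' m m' ⟨Nat.gcd h k, h / Nat.gcd h k, k / Nat.gcd h k⟩ ≤
    1536 * (δ j / m) * (δ j' / m') + (δ j' / m') * (j * δ j / 2 ^ s) := by
  have hδ : 0 < δ j := lt_of_lt_of_le (by positivity) hδ1
  have hm1 : (1 : ℝ) ≤ m := by exact_mod_cast hm
  have hm1' : (1 : ℝ) ≤ m' := by exact_mod_cast hm'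
  have hρ := rad_pos (δ := δ) (j := j) hδ hm
  have hρ' := rad_pos (δ := δ) (j := j') hδ' hm'
  have hmn0 : 0 ≤ mn δ j j' m m' := by
    unfold mn; rw [le_min_iff]; constructor <;> positivity
  refine (inner_sum α δ j j' m m' hmn0 (fun d => 3 * 2 ^ j' / d) (fun d => by positivity)
    ?_).trans ?_
  · intro d hd hd2 h _
    refine le_trans ?_ (card_R3 hd (lt_of_lt_of_le hd2
      (Nat.pow_le_pow_right (by norm_num) (by omega))))
    exact_mod_cast Finset.card_le_card (Finset.filter_subset _ _)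
  · have h1 : ∀ d ∈ Ico (1 : ℕ) (2 ^ (j + 1)),
        6 * (2 : ℝ) ^ j * mn δ j j' m m' * (3 * 2 ^ j' / d) ≤
        (18 * 2 ^ j * rad δ j' m') * (1 / d) := by
      intro d hd
      have hmn : mn δ j j' m m' ≤ rad δ j' m' / 2 ^ j' := min_le_right _ _
      calc 6 * (2 : ℝ) ^ j * mn δ j j' m m' * (3 * 2 ^ j' / d)
          ≤ 6 * (2 : ℝ) ^ j * (rad δ j' m' / 2 ^ j') * (3 * 2 ^ j' / d) := by gcongr
        _ = (18 * 2 ^ j * rad δ j' m') * (1 / d) := by field_simp; ring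
    refine (Finset.sum_le_sum h1).trans ?_
    rw [← Finset.mul_sum]
    have h2 := sum_inv_le j
    have h3 : (18 * 2 ^ j * rad δ j' m') * ∑ d ∈ Ico (1 : ℕ) (2 ^ (j + 1)), (1 : ℝ) / d ≤
        (18 * 2 ^ j * rad δ j' m') * (j + 2) := by gcongr
    refine h3.trans ?_
    have h4 : 18 * (2 : ℝ) ^ j * rad δ j' m' ≤ (δ j' / m') * (18 / 2 ^ (2 * s)) := by
      unfold rad
      have e : 18 * (2 : ℝ) ^ j * (δ j' / (m' * 2 ^ j')) = (δ j' / m') * (18 * (2 ^ j / 2 ^ j')) := by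
        field_simp
      rw [e]
      have : (2 : ℝ) ^ j / 2 ^ j' ≤ 1 / 2 ^ (2 * s) := by
        rw [div_le_div_iff₀ (by positivity) (by positivity), ← pow_add, one_mul]
        exact pow_le_pow_right₀ (by norm_num) hjj
      calc (δ j' / m') * (18 * (2 ^ j / 2 ^ j')) ≤ (δ j' / m') * (18 * (1 / 2 ^ (2 * s))) := by
            gcongr
        _ = _ := by ring
    have h5 : 18 / (2 : ℝ) ^ (2 * s) * (j + 2) ≤ j * δ j / 2 ^ s := by
      have e : 18 / (2 : ℝ) ^ (2 * s) * (j + 2) = (18 * (j + 2) * (1 / 2 ^ s)) / 2 ^ s := by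
        rw [two_mul, pow_add]; field_simp
      rw [e]
      apply div_le_div_of_nonneg_right _ (by positivity)
      have hj' : (100 : ℝ) ≤ j := by exact_mod_cast hj
      have : 1 / (2 : ℝ) ^ s ≤ δ j / 64 := by
        rw [le_div_iff₀ (by norm_num)]
        calc 1 / (2 : ℝ) ^ s * 64 = 64 / 2 ^ s := by ring
          _ ≤ _ := hδ1
      calc 18 * ((j : ℝ) + 2) * (1 / 2 ^ s) ≤ 18 * (j + 2) * (δ j / 64) := by gcongr
        _ ≤ j * δ j := by nlinarith
    calc 18 * (2 : ℝ) ^ j * rad δ j' m' * (j + 2)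
        ≤ (δ j' / m') * (18 / 2 ^ (2 * s)) * (j + 2) := by gcongr
      _ = (δ j' / m') * (18 / 2 ^ (2 * s) * (j + 2)) := by ring
      _ ≤ (δ j' / m') * (j * δ j / 2 ^ s) := by gcongr
      _ ≤ _ := by
          have : 0 ≤ 1536 * (δ j / m) * (δ j' / m') := by positivity
          linarith

/-- near scales -/
theorem inner_near (α c : ℝ) (hc : 0 < c) (hc1 : c ≤ 1)
    (hα : ∀ u : ℕ, 1 ≤ u → c / (u : ℝ) ^ 2 ≤ nn (u * α))
    (δ : ℕ → ℝ) (s j j' m m' : ℕ) (hcs : (2 : ℝ) ^ 200 ≤ c * 2 ^ (2 * s)) (hs : 1 ≤ s)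
    (hj1 : 100 * s ≤ j) (hj2 : j < 100 * (s + 1))
    (hjj : j ≤ j') (hjj' : j' < j + 2 * s) (hm : 1 ≤ m) (hm' : 1 ≤ m')
    (hm2 : m < 2 ^ s) (hm2' : m' < 2 ^ (2 * s))
    (hδ1 : 64 / (2 : ℝ) ^ s ≤ δ j) (hδ2 : δ j ≤ 1 / 4) (hδ' : 0 < δ j') (hδ2' : δ j' ≤ 1 / 4) :
    ∑ h ∈ Ico (2 ^ j) (2 ^ (j + 1)), ∑ k ∈ Ico (2 ^ j') (2 ^ (j' + 1)),
      fT α δ j j' m m' ⟨Nat.gcd h k, h / Nat.gcd h k, k / Nat.gcd h k⟩ ≤
    1536 * (δ j / m) * (δ j' / m') + (δ j' / m') * (j * δ j / 2 ^ s) := by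
  have hδ : 0 < δ j := lt_of_lt_of_le (by positivity) hδ1
  have hm1 : (1 : ℝ) ≤ m := by exact_mod_cast hm
  have hm1' : (1 : ℝ) ≤ m' := by exact_mod_cast hm'
  have hρ := rad_pos (δ := δ) (j := j) hδ hm
  have hρ' := rad_pos (δ := δ) (j := j') hδ' hm'
  have hmn0 : 0 ≤ mn δ j j' m m' := by
    unfold mn; rw [le_min_iff]; constructor <;> positivity
  have heta0 : ∀ d, 0 ≤ eta δ j j' m m' d := by
    intro d; unfold eta; positivity
  -- bounds for eta
  have heta_up : ∀ d : ℕ, 1 ≤ d → eta δ j j' m m' d ≤ 2 ^ (2 * s) / d := by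
    intro d hd
    have hd' : (0 : ℝ) < d := by exact_mod_cast hd
    unfold eta
    gcongr
    have a1 : (2 : ℝ) ^ j' * rad δ j m ≤ 2 ^ (2 * s) / 4 := by
      unfold rad
      have : (2 : ℝ) ^ j' ≤ 2 ^ (2 * s) * 2 ^ j := by
        rw [← pow_add]; exact pow_le_pow_right₀ (by norm_num) (by omega)
      rw [mul_div_assoc', div_le_div_iff₀ (by positivity) (by norm_num)]
      calc (2 : ℝ) ^ j' * δ j * 4 ≤ (2 ^ (2 * s) * 2 ^ j) * (1 / 4) * 4 := by gcongr
        _ = 2 ^ (2 * s) * (1 * 2 ^ j) := by ring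
        _ ≤ 2 ^ (2 * s) * (m * 2 ^ j) := by gcongr
    have a2 : (2 : ℝ) ^ j * rad δ j' m' ≤ 1 / 4 := by
      unfold rad
      have : (2 : ℝ) ^ j ≤ 2 ^ j' := pow_le_pow_right₀ (by norm_num) hjj
      rw [mul_div_assoc', div_le_div_iff₀ (by positivity) (by norm_num)]
      calc (2 : ℝ) ^ j * δ j' * 4 ≤ 2 ^ j' * (1 / 4) * 4 := by gcongr
        _ = 1 * (1 * 2 ^ j') := by ring
        _ ≤ 1 * (m' * 2 ^ j') := by gcongr
    have a3 : (1 : ℝ) ≤ 2 ^ (2 * s) := one_le_pow₀ (by norm_num)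
    linarith
  have heta_lo : ∀ d : ℕ, 1 ≤ d → d ≤ 2 ^ (20 * s) →
      1 / (2 : ℝ) ^ (22 * s) ≤ eta δ j j' m m' d := by
    intro d hd hd2
    have hd' : (0 : ℝ) < d := by exact_mod_cast hd
    have hd2' : (d : ℝ) ≤ 2 ^ (20 * s) := by exact_mod_cast hd2
    have hm2r : (m : ℝ) ≤ 2 ^ s := by exact_mod_cast hm2.le
    unfold eta
    rw [div_le_div_iff₀ (by positivity) hd', one_mul]
    have a1 : 1 / (2 : ℝ) ^ (2 * s) ≤ 2 ^ j' * rad δ j m := by
      unfold rad
      have : (2 : ℝ) ^ j ≤ 2 ^ j' := pow_le_pow_right₀ (by norm_num) hjj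
      rw [mul_div_assoc', div_le_div_iff₀ (by positivity) (by positivity), one_mul]
      have b1 : 1 / (2 : ℝ) ^ s ≤ δ j := by
        refine le_trans ?_ hδ1
        gcongr
        norm_num
      calc (m : ℝ) * 2 ^ j ≤ 2 ^ s * 2 ^ j' := by gcongr
        _ = 2 ^ j' * (1 / 2 ^ s) * 2 ^ (2 * s) := by
            rw [two_mul, pow_add]; field_simp
        _ ≤ 2 ^ j' * δ j * 2 ^ (2 * s) := by gcongr
    have a2 : 0 ≤ (2 : ℝ) ^ j * rad δ j' m' := by positivity
    calc (d : ℝ) ≤ 2 ^ (20 * s) := hd2'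
      _ = (1 / 2 ^ (2 * s)) * 2 ^ (22 * s) := by
          rw [show 22 * s = 2 * s + 20 * s by ring, pow_add]; field_simp
      _ ≤ 2 * (2 ^ j' * rad δ j m + 2 ^ j * rad δ j' m') * 2 ^ (22 * s) := by
          have a3 : (0 : ℝ) ≤ 1 / 2 ^ (2 * s) := by positivity
          gcongr
          linarith
  refine (inner_sum α δ j j' m m' hmn0 (fun d => 32 * eta δ j j' m m' d * (2 ^ j' / d) +
    (2 ^ j' / (d * 2 ^ (7 * s)) + (if d < 2 ^ (80 * s) then 3 else 0))) ?_ ?_).trans ?_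
  · intro d
    have := heta0 d
    have : (0 : ℝ) ≤ (if d < 2 ^ (80 * s) then 3 else 0) := by split_ifs <;> norm_num
    positivity
  · intro d hd hd2 h hh
    have hd' : (0 : ℝ) < d := by exact_mod_cast hd
    have e0 := heta0 d
    have e3 : (0 : ℝ) ≤ (if d < 2 ^ (80 * s) then 3 else 0) := by split_ifs <;> norm_num
    have hsub : (((R j' d).filter
        (fun k => res α m m' h k (eta δ j j' m m' d) ∧ k * m ≠ h * m')).card : ℝ) ≤
        ((R j' d).filter (fun k => res α m m' h k (eta δ j j' m m' d))).card := by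
      have : (R j' d).filter
        (fun k => res α m m' h k (eta δ j j' m m' d) ∧ k * m ≠ h * m') ⊆
        (R j' d).filter (fun k => res α m m' h k (eta δ j j' m m' d)) := by
        intro k hk
        rw [mem_filter] at hk ⊢
        exact ⟨hk.1, hk.2.1⟩
      exact_mod_cast Finset.card_le_card this
    rcases le_or_gt d (2 ^ (20 * s)) with h1 | h1
    · have := near_small α c hc hc1 hα s j j' m d _ hcs hj1 hjj hm hm2 hd h1
        (heta_lo d hd h1) h m'
      have b : (0 : ℝ) ≤ 2 ^ j' / (d * 2 ^ (7 * s)) := by positivity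
      linarith
    · rcases Nat.lt_or_ge d (2 ^ (80 * s)) with h2 | h2
      · rw [if_pos h2]
        have := near_large α c hc hα s j' m d _ hcs hm hm2 h1 (heta_up d hd) h m'
        have b : (0 : ℝ) ≤ 32 * eta δ j j' m m' d * (2 ^ j' / d) := by positivity
        linarith
      · have hemp : (R j' d).filter
          (fun k => res α m m' h k (eta δ j j' m m' d) ∧ k * m ≠ h * m') = ∅ := by
          rw [Finset.filter_eq_empty_iff]
          intro k hk hcon
          exact near_huge α c hc hα s j j' m m' d _ hcs hj2 hjj' hm2 hm2' h2 (heta_up d hd)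
            h k hh hk hcon.2 hcon.1
        rw [hemp, Finset.card_empty]
        push_cast
        positivity
  · -- the sum over d
    set a : ℝ := rad δ j m / 2 ^ j with ha
    set b : ℝ := rad δ j' m' / 2 ^ j' with hb
    have ha0 : 0 < a := by rw [ha]; positivity
    have hb0 : 0 < b := by rw [hb]; positivity
    have hmnb : mn δ j j' m m' ≤ b := min_le_right _ _
    have hmnab : mn δ j j' m m' * (a + b) ≤ 2 * (a * b) := by
      unfold mn
      rw [← ha, ← hb]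
      rcases min_cases a b with ⟨e, h⟩ | ⟨e, h⟩
      · rw [e]; nlinarith
      · rw [e]; nlinarith
    have hra : rad δ j m = a * 2 ^ j := by rw [ha]; field_simp
    have hrb : rad δ j' m' = b * 2 ^ j' := by rw [hb]; field_simp
    have h1 : ∀ d ∈ Ico (1 : ℕ) (2 ^ (j + 1)),
        6 * (2 : ℝ) ^ j * mn δ j j' m m' * (32 * eta δ j j' m m' d * (2 ^ j' / d) +
          (2 ^ j' / (d * 2 ^ (7 * s)) + (if d < 2 ^ (80 * s) then 3 else 0))) ≤
        768 * ((2 ^ j * 2 ^ j') ^ 2 * (a * b)) * (1 / (d : ℝ) ^ 2) +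
        (6 * 2 ^ j * 2 ^ j' * b / 2 ^ (7 * s)) * (1 / d) +
        18 * 2 ^ j * b * (if d < 2 ^ (80 * s) then 1 else 0) := by
      intro d hd
      rw [mem_Ico] at hd
      have hd' : (0 : ℝ) < d := by exact_mod_cast hd.1
      have c1 : 6 * (2 : ℝ) ^ j * mn δ j j' m m' * (32 * eta δ j j' m m' d * (2 ^ j' / d)) ≤
          768 * ((2 ^ j * 2 ^ j') ^ 2 * (a * b)) * (1 / (d : ℝ) ^ 2) := by
        unfold eta
        rw [hra, hrb]
        calc 6 * (2 : ℝ) ^ j * mn δ j j' m m' *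
            (32 * (2 * (2 ^ j' * (a * 2 ^ j) + 2 ^ j * (b * 2 ^ j')) / d) * (2 ^ j' / d))
            = 384 * (2 ^ j * 2 ^ j') ^ 2 * (mn δ j j' m m' * (a + b)) * (1 / (d : ℝ) ^ 2) := by
              field_simp; ring
          _ ≤ 384 * (2 ^ j * 2 ^ j') ^ 2 * (2 * (a * b)) * (1 / (d : ℝ) ^ 2) := by gcongr
          _ = _ := by ring
      have c2 : 6 * (2 : ℝ) ^ j * mn δ j j' m m' * (2 ^ j' / (d * 2 ^ (7 * s))) ≤
          (6 * 2 ^ j * 2 ^ j' * b / 2 ^ (7 * s)) * (1 / d) := by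
        calc 6 * (2 : ℝ) ^ j * mn δ j j' m m' * (2 ^ j' / (d * 2 ^ (7 * s)))
            ≤ 6 * (2 : ℝ) ^ j * b * (2 ^ j' / (d * 2 ^ (7 * s))) := by gcongr
          _ = _ := by field_simp
      have c3 : 6 * (2 : ℝ) ^ j * mn δ j j' m m' * (if d < 2 ^ (80 * s) then 3 else 0) ≤
          18 * 2 ^ j * b * (if d < 2 ^ (80 * s) then 1 else 0) := by
        split_ifs
        · calc 6 * (2 : ℝ) ^ j * mn δ j j' m m' * 3 ≤ 6 * (2 : ℝ) ^ j * b * 3 := by gcongr
            _ = _ := by ring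
        · simp
      rw [mul_add, mul_add]
      linarith
    refine (Finset.sum_le_sum h1).trans ?_
    rw [Finset.sum_add_distrib, Finset.sum_add_distrib, ← Finset.mul_sum, ← Finset.mul_sum,
      ← Finset.mul_sum]
    have s1 := sum_inv_sq_le (2 ^ (j + 1))
    have s2 := sum_inv_le j
    have s3 : ∑ d ∈ Ico (1 : ℕ) (2 ^ (j + 1)), (if d < 2 ^ (80 * s) then (1 : ℝ) else 0) ≤
        2 ^ (80 * s) := by
      rw [Finset.sum_boole]
      have : (Ico (1 : ℕ) (2 ^ (j + 1))).filter (fun d => d < 2 ^ (80 * s)) ⊆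
          range (2 ^ (80 * s)) := by
        intro d hd
        rw [mem_filter] at hd
        exact mem_range.mpr hd.2
      have := Finset.card_le_card this
      rw [card_range] at this
      exact_mod_cast this
    have t1 : 768 * ((2 ^ j * 2 ^ j') ^ 2 * (a * b)) *
        ∑ d ∈ Ico (1 : ℕ) (2 ^ (j + 1)), (1 : ℝ) / (d : ℝ) ^ 2 ≤
        1536 * (δ j / m) * (δ j' / m') := by
      have e : 1536 * (δ j / m) * (δ j' / m') = 768 * ((2 ^ j * 2 ^ j') ^ 2 * (a * b)) * 2 := by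
        rw [ha, hb]; unfold rad; field_simp; ring
      rw [e]
      gcongr
    -- second and third
    have hbb : b = δ j' / m' / (2 ^ j' * 2 ^ j') := by
      rw [hb]; unfold rad; field_simp
    have hjr : (100 : ℝ) ≤ j := by
      have : 100 ≤ j := by omega
      exact_mod_cast this
    have hinv : 1 / (2 : ℝ) ^ s ≤ δ j / 64 := by
      rw [le_div_iff₀ (by norm_num)]
      calc 1 / (2 : ℝ) ^ s * 64 = 64 / 2 ^ s := by ring
        _ ≤ _ := hδ1
    have h2jj : (2 : ℝ) ^ j ≤ 2 ^ j' := pow_le_pow_right₀ (by norm_num) hjj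
    have t2 : (6 * 2 ^ j * 2 ^ j' * b / 2 ^ (7 * s)) *
        ∑ d ∈ Ico (1 : ℕ) (2 ^ (j + 1)), (1 : ℝ) / d ≤
        (δ j' / m') * (j * δ j / 2 ^ s / 2) := by
      have e1 : 6 * (2 : ℝ) ^ j * 2 ^ j' * b / 2 ^ (7 * s) ≤
          (δ j' / m') * (6 / 2 ^ (7 * s)) := by
        rw [hbb]
        calc 6 * (2 : ℝ) ^ j * 2 ^ j' * (δ j' / m' / (2 ^ j' * 2 ^ j')) / 2 ^ (7 * s)
            = (δ j' / m') * (6 / 2 ^ (7 * s)) * (2 ^ j / 2 ^ j') := by field_simp
          _ ≤ (δ j' / m') * (6 / 2 ^ (7 * s)) * 1 := by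
              gcongr
              rw [div_le_one (by positivity)]; exact h2jj
          _ = _ := by ring
      calc (6 * 2 ^ j * 2 ^ j' * b / 2 ^ (7 * s)) *
          ∑ d ∈ Ico (1 : ℕ) (2 ^ (j + 1)), (1 : ℝ) / d
          ≤ ((δ j' / m') * (6 / 2 ^ (7 * s))) * (j + 2) := by gcongr
        _ = (δ j' / m') * (6 * (j + 2) / 2 ^ (7 * s)) := by ring
        _ ≤ (δ j' / m') * (j * δ j / 2 ^ s / 2) := by
            apply mul_le_mul_of_nonneg_left _ (by positivity)
            have e2 : (6 : ℝ) * (j + 2) / 2 ^ (7 * s) =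
                (6 * (j + 2) * (1 / 2 ^ s) * (1 / 2 ^ (5 * s))) / 2 ^ s := by
              rw [show 7 * s = s + 5 * s + s by ring, pow_add, pow_add]; field_simp
            rw [e2, div_div, mul_comm ((2 : ℝ) ^ s) 2, ← div_div]
            apply div_le_div_of_nonneg_right _ (by positivity)
            have e3 : (1 : ℝ) / 2 ^ (5 * s) ≤ 1 := by
              rw [div_le_one (by positivity)]; exact one_le_pow₀ (by norm_num)
            calc 6 * ((j : ℝ) + 2) * (1 / 2 ^ s) * (1 / 2 ^ (5 * s))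
                ≤ 6 * (j + 2) * (δ j / 64) * 1 := by gcongr
              _ ≤ j * δ j / 2 := by nlinarith
    have t3 : 18 * 2 ^ j * b *
        ∑ d ∈ Ico (1 : ℕ) (2 ^ (j + 1)), (if d < 2 ^ (80 * s) then (1 : ℝ) else 0) ≤
        (δ j' / m') * (j * δ j / 2 ^ s / 2) := by
      calc 18 * 2 ^ j * b *
          ∑ d ∈ Ico (1 : ℕ) (2 ^ (j + 1)), (if d < 2 ^ (80 * s) then (1 : ℝ) else 0)
          ≤ 18 * 2 ^ j * b * 2 ^ (80 * s) := by gcongr
        _ = (δ j' / m') * (18 * (2 ^ (80 * s) * (2 ^ j / 2 ^ j') / 2 ^ j')) := by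
            rw [hbb]; field_simp
        _ ≤ (δ j' / m') * (18 * (2 ^ (80 * s) * 1 / 2 ^ (100 * s))) := by
            gcongr
            · rw [div_le_one (by positivity)]; exact h2jj
            · norm_num
            · omega
        _ ≤ (δ j' / m') * (j * δ j / 2 ^ s / 2) := by
            apply mul_le_mul_of_nonneg_left _ (by positivity)
            have e2 : (18 : ℝ) * (2 ^ (80 * s) * 1 / 2 ^ (100 * s)) =
                (18 * (1 / 2 ^ s) * (1 / 2 ^ (18 * s))) / 2 ^ s := by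
              rw [show 100 * s = 80 * s + s + 18 * s + s by ring, pow_add, pow_add, pow_add]
              field_simp
            rw [e2, div_div, mul_comm ((2 : ℝ) ^ s) 2, ← div_div]
            apply div_le_div_of_nonneg_right _ (by positivity)
            have e3 : (1 : ℝ) / 2 ^ (18 * s) ≤ 1 := by
              rw [div_le_one (by positivity)]; exact one_le_pow₀ (by norm_num)
            calc (18 : ℝ) * (1 / 2 ^ s) * (1 / 2 ^ (18 * s))
                ≤ 18 * (δ j / 64) * 1 := by gcongr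
              _ ≤ j * δ j / 2 := by nlinarith
    have : (δ j' / m') * (j * δ j / 2 ^ s) =
        (δ j' / m') * (j * δ j / 2 ^ s / 2) + (δ j' / m') * (j * δ j / 2 ^ s / 2) := by ring
    linarith

end Pool.Agent.FIB
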