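import Mathlib
import Pool.Agent.FIB.Pair2

set_option autoImplicit false

/-! FIB (MP_36674f_nt): the sum of the pairwise overlaps at the scales `j ≤ j'`, final form. -/

namespace Pool.Agent.FIB

open Finset MeasureTheory Classical

theorem fT_nonneg (α : ℝ) {δ : ℕ → ℝ} {j j' m m' : ℕ} (hδ : 0 < δ j) (hδ' : 0 < δ j')
    (hm : 1 ≤ m) (hm' : 1 ≤ m') (x : (_ : ℕ) × ℕ × ℕ) : 0 ≤ fT α δ j j' m m' x := by
  have hρ := rad_pos (δ := δ) (j := j) hδ hm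
  have hρ' := rad_pos (δ := δ) (j := j') hδ' hm'
  have hmn0 : 0 ≤ mn δ j j' m m' := by
    unfold mn; rw [le_min_iff]; constructor <;> positivity
  unfold fT; split_ifs <;> positivity

theorem sum_rad_le {δ : ℕ → ℝ} {j : ℕ} (hδ : 0 ≤ δ j) (hj : 2 ≤ j) :
    ∑ v ∈ V j, rad δ j v.1 ≤ j * δ j := by
  have h1 : ∑ v ∈ V j, rad δ j v.1 = δ j * ∑ v ∈ V j, (1 : ℝ) / (v.1 * 2 ^ j) := by
    rw [Finset.mul_sum]
    refine Finset.sum_congr rfl fun v _ => ?_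
    unfold rad; ring
  rw [h1, mul_comm]
  exact mul_le_mul_of_nonneg_right (weight_upper hj) hδ

theorem le_sum_rad {δ : ℕ → ℝ} {j : ℕ} (hδ : 0 ≤ δ j) (hj : 100 ≤ j) :
    j * δ j / 1200 ≤ ∑ v ∈ V j, rad δ j v.1 := by
  have h1 : ∑ v ∈ V j, rad δ j v.1 = δ j * ∑ v ∈ V j, (1 : ℝ) / (v.1 * 2 ^ j) := by
    rw [Finset.mul_sum]
    refine Finset.sum_congr rfl fun v _ => ?_
    unfold rad; ring
  rw [h1]
  calc j * δ j / 1200 = δ j * (j / 1200) := by ring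
    _ ≤ _ := mul_le_mul_of_nonneg_left (weight_lower hj) hδ

theorem pair_bound (α c : ℝ) (hc : 0 < c) (hc1 : c ≤ 1)
    (hα : ∀ u : ℕ, 1 ≤ u → c / (u : ℝ) ^ 2 ≤ nn (u * α))
    (δ : ℕ → ℝ) (j j' : ℕ) (hcs : (2 : ℝ) ^ 200 ≤ c * 2 ^ (2 * (j / 100))) (hj : 100 ≤ j)
    (hjj : j ≤ j') (hδ1 : 64 / (2 : ℝ) ^ (j / 100) ≤ δ j) (hδ2 : δ j ≤ 1 / 4)
    (hδ' : 0 < δ j') (hδ2' : δ j' ≤ 1 / 4) :
    ∑ v ∈ V j, ∑ v' ∈ V j', (if v = v' then 0 else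
      volume.real (Av α δ j v ∩ Av α δ j' v')) ≤ 1600 * (j * δ j) * (j' * δ j') := by
  set s := j / 100 with hs
  have hδ : 0 < δ j := lt_of_lt_of_le (by positivity) hδ1
  have hs1 : 1 ≤ s := by omega
  -- step 1
  have h1 : ∑ v ∈ V j, ∑ v' ∈ V j', (if v = v' then 0 else
      volume.real (Av α δ j v ∩ Av α δ j' v')) ≤
      ∑ v ∈ V j, ∑ v' ∈ V j', (4 * rad δ j v.1 * rad δ j' v'.1 +
      fT α δ j j' v.1 v'.1 ⟨Nat.gcd v.2 v'.2, v.2 / Nat.gcd v.2 v'.2, v'.2 / Nat.gcd v.2 v'.2⟩) := by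
    apply Finset.sum_le_sum; intro v hv
    apply Finset.sum_le_sum; intro v' hv'
    split_ifs with he
    · have a1 := rad_pos (δ := δ) (j := j) hδ (mem_V hv).1
      have a2 := rad_pos (δ := δ) (j := j') hδ' (mem_V hv').1
      have a3 := fT_nonneg α (δ := δ) (j := j) (j' := j') hδ hδ' (mem_V hv).1 (mem_V hv').1
        ⟨Nat.gcd v.2 v'.2, v.2 / Nat.gcd v.2 v'.2, v'.2 / Nat.gcd v.2 v'.2⟩
      positivity
    · exact pointwise α δ j j' hδ hδ' v v' hv hv' he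
  refine h1.trans ?_
  simp only [Finset.sum_add_distrib]
  -- step 2: the main terms
  have h2 : ∑ v ∈ V j, ∑ v' ∈ V j', 4 * rad δ j v.1 * rad δ j' v'.1 ≤
      4 * (j * δ j) * (j' * δ j') := by
    have e : ∑ v ∈ V j, ∑ v' ∈ V j', 4 * rad δ j v.1 * rad δ j' v'.1 =
        4 * (∑ v ∈ V j, rad δ j v.1) * ∑ v' ∈ V j', rad δ j' v'.1 := by
      rw [Finset.mul_sum (V j), Finset.sum_mul_sum]
    rw [e]
    have a1 := sum_rad_le (δ := δ) (j := j) hδ.le (by omega)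
    have a2 := sum_rad_le (δ := δ) (j := j') hδ'.le (by omega)
    have a3 : 0 ≤ ∑ v' ∈ V j', rad δ j' v'.1 :=
      Finset.sum_nonneg fun v hv => (rad_pos hδ' (mem_V hv).1).le
    gcongr
  -- step 3: the resonant terms
  have h3 : ∑ v ∈ V j, ∑ v' ∈ V j', fT α δ j j' v.1 v'.1
      ⟨Nat.gcd v.2 v'.2, v.2 / Nat.gcd v.2 v'.2, v'.2 / Nat.gcd v.2 v'.2⟩ ≤
      ∑ m ∈ Ico (1 : ℕ) (2 ^ s), ∑ m' ∈ Ico (1 : ℕ) (2 ^ (j' / 100)),
        (1536 * (δ j / m) * (δ j' / m') + (δ j' / m') * (j * δ j / 2 ^ s)) := by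
    have b1 : ∑ v ∈ V j, ∑ v' ∈ V j', fT α δ j j' v.1 v'.1
        ⟨Nat.gcd v.2 v'.2, v.2 / Nat.gcd v.2 v'.2, v'.2 / Nat.gcd v.2 v'.2⟩ ≤
        ∑ v ∈ (Ico (1 : ℕ) (2 ^ s)) ×ˢ (Ico (2 ^ j) (2 ^ (j + 1))),
        ∑ v' ∈ (Ico (1 : ℕ) (2 ^ (j' / 100))) ×ˢ (Ico (2 ^ j') (2 ^ (j' + 1))),
          fT α δ j j' v.1 v'.1
        ⟨Nat.gcd v.2 v'.2, v.2 / Nat.gcd v.2 v'.2, v'.2 / Nat.gcd v.2 v'.2⟩ := by
      have hnn : ∀ v ∈ (Ico (1 : ℕ) (2 ^ s)) ×ˢ (Ico (2 ^ j) (2 ^ (j + 1))),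
          ∀ v' ∈ (Ico (1 : ℕ) (2 ^ (j' / 100))) ×ˢ (Ico (2 ^ j') (2 ^ (j' + 1))),
          0 ≤ fT α δ j j' v.1 v'.1
        ⟨Nat.gcd v.2 v'.2, v.2 / Nat.gcd v.2 v'.2, v'.2 / Nat.gcd v.2 v'.2⟩ := by
        intro v hv v' hv'
        rw [mem_product, mem_Ico] at hv hv'
        exact fT_nonneg α hδ hδ' hv.1.1 hv'.1.1 _
      have hsub : V j ⊆ (Ico (1 : ℕ) (2 ^ s)) ×ˢ (Ico (2 ^ j) (2 ^ (j + 1))) :=
        Finset.filter_subset _ _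
      have hsub' : V j' ⊆ (Ico (1 : ℕ) (2 ^ (j' / 100))) ×ˢ (Ico (2 ^ j') (2 ^ (j' + 1))) :=
        Finset.filter_subset _ _
      refine le_trans (Finset.sum_le_sum fun v hv =>
        Finset.sum_le_sum_of_subset_of_nonneg hsub' fun v' hv' _ => hnn v (hsub hv) v' hv') ?_
      exact Finset.sum_le_sum_of_subset_of_nonneg hsub fun v hv _ =>
        Finset.sum_nonneg fun v' hv' => hnn v hv v' hv'
    refine b1.trans ?_
    simp only [Finset.sum_product]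
    apply Finset.sum_le_sum
    intro m hm
    rw [mem_Ico] at hm
    rw [Finset.sum_comm]
    apply Finset.sum_le_sum
    intro m' hm'
    rw [mem_Ico] at hm'
    rcases Nat.lt_or_ge j' (j + 2 * s) with hcase | hcase
    · refine inner_near α c hc hc1 hα δ s j j' m m' hcs hs1 (by omega) (by omega) hjj hcase
        hm.1 hm'.1 hm.2 ?_ hδ1 hδ2 hδ' hδ2'
      refine lt_of_lt_of_le hm'.2 (Nat.pow_le_pow_right (by norm_num) ?_)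
      omega
    · exact inner_far α δ s j j' m m' hcase hj hm.1 hm'.1 hδ1 hδ'
  -- step 4: evaluate
  have h4 : ∑ m ∈ Ico (1 : ℕ) (2 ^ s), ∑ m' ∈ Ico (1 : ℕ) (2 ^ (j' / 100)),
        (1536 * (δ j / m) * (δ j' / m') + (δ j' / m') * (j * δ j / 2 ^ s)) =
      (1536 * δ j * (∑ m ∈ Ico (1 : ℕ) (2 ^ s), (1 : ℝ) / m) +
        (∑ m ∈ Ico (1 : ℕ) (2 ^ s), (1 : ℝ)) * (j * δ j / 2 ^ s)) *
        (δ j' * ∑ m' ∈ Ico (1 : ℕ) (2 ^ (j' / 100)), (1 : ℝ) / m') := by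
    rw [Finset.mul_sum, Finset.sum_mul, ← Finset.sum_add_distrib, Finset.mul_sum,
      Finset.sum_mul_sum]
    refine Finset.sum_congr rfl fun m _ => Finset.sum_congr rfl fun m' _ => ?_
    ring
  have hjr : (100 : ℝ) ≤ j := by exact_mod_cast hj
  have hjr' : (100 : ℝ) ≤ j' := by exact_mod_cast (le_trans hj hjj)
  have h5 : ∑ m ∈ Ico (1 : ℕ) (2 ^ s), (1 : ℝ) / m ≤ j := by
    refine (sum_le_one_add s).trans ?_
    have : (s : ℝ) ≤ (j : ℝ) / 100 := by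
      rw [hs]; exact_mod_cast Nat.cast_div_le (α := ℝ) (m := j) (n := 100)
    linarith
  have h6 : ∑ m' ∈ Ico (1 : ℕ) (2 ^ (j' / 100)), (1 : ℝ) / m' ≤ j' := by
    refine (sum_le_one_add (j' / 100)).trans ?_
    have : ((j' / 100 : ℕ) : ℝ) ≤ (j' : ℝ) / 100 := by
      exact_mod_cast Nat.cast_div_le (α := ℝ) (m := j') (n := 100)
    linarith
  have h7 : ∑ m ∈ Ico (1 : ℕ) (2 ^ s), (1 : ℝ) ≤ 2 ^ s := by
    rw [Finset.sum_const, Nat.card_Ico, nsmul_eq_mul, mul_one]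
    have : 2 ^ s - 1 ≤ 2 ^ s := Nat.sub_le _ _
    exact_mod_cast this
  have h8 : 0 ≤ ∑ m' ∈ Ico (1 : ℕ) (2 ^ (j' / 100)), (1 : ℝ) / m' :=
    Finset.sum_nonneg fun m _ => by positivity
  have h9 : (1536 * δ j * (∑ m ∈ Ico (1 : ℕ) (2 ^ s), (1 : ℝ) / m) +
        (∑ m ∈ Ico (1 : ℕ) (2 ^ s), (1 : ℝ)) * (j * δ j / 2 ^ s)) *
        (δ j' * ∑ m' ∈ Ico (1 : ℕ) (2 ^ (j' / 100)), (1 : ℝ) / m') ≤
      (1536 * δ j * j + 2 ^ s * (j * δ j / 2 ^ s)) * (δ j' * j') := by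
    gcongr
  have h10 : (1536 * δ j * j + 2 ^ s * (j * δ j / 2 ^ s)) * (δ j' * j') =
      1537 * (j * δ j) * (j' * δ j') := by
    field_simp
    ring
  have h11 : 0 ≤ (j * δ j) * (j' * δ j') := by positivity
  calc _ ≤ 4 * (j * δ j) * (j' * δ j') + 1537 * (j * δ j) * (j' * δ j') := by
        refine add_le_add h2 (h3.trans ?_)
        rw [h4]
        exact h9.trans h10.le
    _ ≤ _ := by nlinarith

end Pool.Agent.FIB
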