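import Mathlib

set_option autoImplicit false

/-! FIB (MP_36674f_nt): the second moment inequality for a finite family of events. -/

namespace Pool.Agent.FIB

open Finset MeasureTheory

theorem second_moment {Ω ι : Type*} [MeasurableSpace Ω] (μ : Measure Ω) [IsFiniteMeasure μ]
    (I : Finset ι) (B : ι → Set Ω) (hB : ∀ i ∈ I, MeasurableSet (B i)) :
    (∑ i ∈ I, μ.real (B i)) ^ 2 ≤
      μ.real (⋃ i ∈ I, B i) * ∑ i ∈ I, ∑ i' ∈ I, μ.real (B i ∩ B i') := by
  classical
  set U : Set Ω := ⋃ i ∈ I, B i with hU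
  have hUm : MeasurableSet U := Finset.measurableSet_biUnion I hB
  set g : ι → Ω → ℝ := fun i => (B i).indicator (fun _ => (1 : ℝ)) with hg
  have hgi : ∀ i ∈ I, Integrable (g i) μ := fun i hi =>
    (integrable_const (1 : ℝ)).indicator (hB i hi)
  have hgint : ∀ i ∈ I, ∫ ω, g i ω ∂μ = μ.real (B i) := fun i hi => by
    simp only [hg]
    rw [integral_indicator_const _ (hB i hi)]
    simp
  have hggeq : ∀ i i', (fun ω => g i ω * g i' ω) = (B i ∩ B i').indicator (fun _ => (1 : ℝ)) := by
    intro i i'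
    ext ω
    simp only [hg]
    by_cases h1 : ω ∈ B i <;> by_cases h2 : ω ∈ B i' <;> simp [h1, h2]
  have hggi : ∀ i ∈ I, ∀ i' ∈ I, Integrable (fun ω => g i ω * g i' ω) μ := fun i hi i' hi' => by
    rw [hggeq]
    exact (integrable_const (1 : ℝ)).indicator ((hB i hi).inter (hB i' hi'))
  have hggint : ∀ i ∈ I, ∀ i' ∈ I, ∫ ω, g i ω * g i' ω ∂μ = μ.real (B i ∩ B i') := by
    intro i hi i' hi'
    rw [hggeq, integral_indicator_const _ ((hB i hi).inter (hB i' hi'))]
    simp
  set f : Ω → ℝ := fun ω => ∑ i ∈ I, g i ω with hf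
  set u : Ω → ℝ := U.indicator (fun _ => (1 : ℝ)) with hu
  have hfu : ∀ ω, f ω * u ω = f ω := by
    intro ω
    by_cases h : ω ∈ U
    · simp [hu, h]
    · have : f ω = 0 := by
        simp only [hf]
        refine Finset.sum_eq_zero fun i hi => ?_
        simp only [hg]
        rw [Set.indicator_of_notMem]
        intro hi'
        exact h (Set.mem_biUnion hi hi')
      rw [this, zero_mul]
  have hff : ∀ ω, f ω * f ω = ∑ i ∈ I, ∑ i' ∈ I, g i ω * g i' ω := by
    intro ω
    simp only [hf]
    rw [Finset.sum_mul_sum]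
  have huu : ∀ ω, u ω * u ω = u ω := by
    intro ω
    by_cases h : ω ∈ U <;> simp [hu, h]
  have hui : Integrable u μ := (integrable_const (1 : ℝ)).indicator hUm
  have huint : ∫ ω, u ω ∂μ = μ.real U := by
    simp only [hu]
    rw [integral_indicator_const _ hUm]
    simp
  have hfi : Integrable f μ := integrable_finsetSum I hgi
  have hfint : ∫ ω, f ω ∂μ = ∑ i ∈ I, μ.real (B i) := by
    simp only [hf]
    rw [integral_finsetSum I hgi]
    exact Finset.sum_congr rfl hgint
  have hffi : Integrable (fun ω => f ω * f ω) μ := by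
    simp only [hff]
    exact integrable_finsetSum I fun i hi => integrable_finsetSum I fun i' hi' =>
      hggi i hi i' hi'
  have hffint : ∫ ω, f ω * f ω ∂μ = ∑ i ∈ I, ∑ i' ∈ I, μ.real (B i ∩ B i') := by
    simp only [hff]
    rw [integral_finsetSum I fun i hi => integrable_finsetSum I fun i' hi' => hggi i hi i' hi']
    refine Finset.sum_congr rfl fun i hi => ?_
    rw [integral_finsetSum I fun i' hi' => hggi i hi i' hi']
    exact Finset.sum_congr rfl fun i' hi' => hggint i hi i' hi'
  have key : ∀ t : ℝ, 0 ≤ μ.real U * (t * t) + (-2 * ∑ i ∈ I, μ.real (B i)) * t +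
      ∑ i ∈ I, ∑ i' ∈ I, μ.real (B i ∩ B i') := by
    intro t
    have h1 : 0 ≤ ∫ ω, (f ω - t * u ω) * (f ω - t * u ω) ∂μ :=
      integral_nonneg fun ω => mul_self_nonneg _
    have h2 : (fun ω => (f ω - t * u ω) * (f ω - t * u ω)) =
        fun ω => (f ω * f ω - (2 * t) * f ω) + (t * t) * u ω := by
      ext ω
      have a1 := hfu ω
      have a2 := huu ω
      calc (f ω - t * u ω) * (f ω - t * u ω)
          = f ω * f ω - (2 * t) * (f ω * u ω) + (t * t) * (u ω * u ω) := by ring
        _ = _ := by rw [a1, a2]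
    rw [h2] at h1
    have h4 : ∫ ω, (f ω * f ω - (2 * t) * f ω) + (t * t) * u ω ∂μ =
        (∑ i ∈ I, ∑ i' ∈ I, μ.real (B i ∩ B i')) - (2 * t) * (∑ i ∈ I, μ.real (B i)) +
          (t * t) * μ.real U := by
      have i1 : Integrable (fun ω => (2 * t) * f ω) μ := hfi.const_mul _
      have i2 : Integrable (fun ω => (t * t) * u ω) μ := hui.const_mul _
      have i3 : Integrable (fun ω => f ω * f ω - (2 * t) * f ω) μ := hffi.sub i1
      rw [integral_add i3 i2, integral_sub hffi i1, integral_const_mul, integral_const_mul,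
        hffint, hfint, huint]
    rw [h4] at h1
    linarith
  have h3 := discrim_le_zero key
  unfold discrim at h3
  nlinarith

end Pool.Agent.FIB
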