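import Mathlib
import Pool.Agent.FIB.Pair3
import Pool.Agent.FIB.Second

set_option autoImplicit false

/-! FIB (MP_36674f_nt): the union of the strips over many scales has measure bounded below. -/

namespace Pool.Agent.FIB

open Finset MeasureTheory Classical

theorem V_inj {j j' : ℕ} {v : ℕ × ℕ} (h : v ∈ V j) (h' : v ∈ V j') : j = j' := by
  obtain ⟨-, -, a1, a2, -⟩ := mem_V h
  obtain ⟨-, -, b1, b2, -⟩ := mem_V h'
  have c1 : j < j' + 1 := (Nat.pow_lt_pow_iff_right (by norm_num : 1 < 2)).mp (lt_of_le_of_lt a1 b2)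
  have c2 : j' < j + 1 := (Nat.pow_lt_pow_iff_right (by norm_num : 1 < 2)).mp (lt_of_le_of_lt b1 a2)
  omega

theorem union_lower (α c : ℝ) (hc : 0 < c) (hc1 : c ≤ 1)
    (hα : ∀ u : ℕ, 1 ≤ u → c / (u : ℝ) ^ 2 ≤ nn (u * α))
    (δ : ℕ → ℝ) (J : Finset ℕ)
    (hJ : ∀ j ∈ J, 100 ≤ j ∧ (2 : ℝ) ^ 200 ≤ c * 2 ^ (2 * (j / 100)) ∧
      64 / (2 : ℝ) ^ (j / 100) ≤ δ j ∧ δ j ≤ 1 / 4)
    (hS : 1 ≤ ∑ j ∈ J, (j : ℝ) * δ j) :
    1 / 2500000000 ≤ volume.real (⋃ x ∈ J.sigma (fun j => V j), Av α δ x.1 x.2) := by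
  set S : ℝ := ∑ j ∈ J, (j : ℝ) * δ j with hSdef
  have hδ : ∀ j ∈ J, 0 < δ j := fun j hj =>
    lt_of_lt_of_le (by positivity) (hJ j hj).2.2.1
  have hm : ∀ x ∈ J.sigma (fun j => V j), MeasurableSet (Av α δ x.1 x.2) := fun x _ =>
    measurableSet_A _ _ _
  have hsm := second_moment (volume : Measure UnitAddCircle) (J.sigma (fun j => V j))
    (fun x => Av α δ x.1 x.2) hm
  -- first moment
  have hfirst : S / 1200 ≤ ∑ x ∈ J.sigma (fun j => V j), volume.real (Av α δ x.1 x.2) := by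
    rw [Finset.sum_sigma, hSdef, Finset.sum_div]
    apply Finset.sum_le_sum
    intro j hj
    refine (le_sum_rad (hδ j hj).le (hJ j hj).1).trans ?_
    apply Finset.sum_le_sum
    intro v hv
    obtain ⟨v1, v2, v3, v4, v5⟩ := mem_V hv
    have r0 := rad_pos (δ := δ) (j := j) (hδ j hj) v1
    have r1 : rad δ j v.1 ≤ 1 := by
      unfold rad
      have : (1 : ℝ) ≤ v.1 := by exact_mod_cast v1
      rw [div_le_one (by positivity)]
      have h2 : (1 : ℝ) ≤ 2 ^ j := one_le_pow₀ (by norm_num)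
      have h3 := (hJ j hj).2.2.2
      nlinarith
    have h0 : 0 < v.2 := lt_of_lt_of_le (by positivity) v3
    have := le_vol_A (v.1 * α) h0 r0 r1
    have h4 := ENNReal.toReal_mono (measure_ne_top volume _) this
    rw [ENNReal.toReal_ofReal r0.le] at h4
    exact h4
  -- diagonal
  have hdiag : ∀ j ∈ J, ∑ v ∈ V j, volume.real (Av α δ j v) ≤ 2 * (j * δ j) := by
    intro j hj
    have h1 : ∑ v ∈ V j, volume.real (Av α δ j v) ≤ ∑ v ∈ V j, 2 * rad δ j v.1 := by
      apply Finset.sum_le_sum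
      intro v hv
      obtain ⟨v1, v2, v3, v4, v5⟩ := mem_V hv
      have r0 := rad_pos (δ := δ) (j := j) (hδ j hj) v1
      have h0 : 0 < v.2 := lt_of_lt_of_le (by positivity) v3
      exact ENNReal.toReal_le_of_le_ofReal (by positivity) (vol_A_le (v.1 * α) h0 _)
    refine h1.trans ?_
    rw [← Finset.mul_sum]
    have := sum_rad_le (δ := δ) (j := j) (hδ j hj).le (by have := (hJ j hj).1; omega)
    linarith
  -- off-diagonal
  have hoff : ∀ j ∈ J, ∀ j' ∈ J, ∑ v ∈ V j, ∑ v' ∈ V j', (if v = v' then 0 else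
      volume.real (Av α δ j v ∩ Av α δ j' v')) ≤ 1600 * (j * δ j) * (j' * δ j') := by
    intro j hj j' hj'
    rcases le_total j j' with h | h
    · exact pair_bound α c hc hc1 hα δ j j' (hJ j hj).2.1 (hJ j hj).1 h (hJ j hj).2.2.1
        (hJ j hj).2.2.2 (hδ j' hj') (hJ j' hj').2.2.2
    · have := pair_bound α c hc hc1 hα δ j' j (hJ j' hj').2.1 (hJ j' hj').1 h (hJ j' hj').2.2.1
        (hJ j' hj').2.2.2 (hδ j hj) (hJ j hj).2.2.2
      rw [Finset.sum_comm]
      refine le_trans (le_of_eq ?_) (this.trans (le_of_eq (by ring)))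
      refine Finset.sum_congr rfl fun v _ => Finset.sum_congr rfl fun v' _ => ?_
      rw [Set.inter_comm]
      by_cases he : v = v'
      · rw [if_pos he, if_pos he.symm]
      · rw [if_neg he, if_neg (Ne.symm he)]
  -- second moment
  have hsecond : ∑ x ∈ J.sigma (fun j => V j), ∑ x' ∈ J.sigma (fun j => V j),
      volume.real (Av α δ x.1 x.2 ∩ Av α δ x'.1 x'.2) ≤ 1600 * S ^ 2 + 2 * S := by
    simp only [Finset.sum_sigma]
    have h1 : ∀ j ∈ J, ∑ v ∈ V j, ∑ j' ∈ J, ∑ v' ∈ V j',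
        volume.real (Av α δ j v ∩ Av α δ j' v') ≤
        (∑ j' ∈ J, ∑ v ∈ V j, ∑ v' ∈ V j', (if v = v' then 0 else
          volume.real (Av α δ j v ∩ Av α δ j' v'))) + ∑ v ∈ V j, volume.real (Av α δ j v) := by
      intro j hj
      rw [Finset.sum_comm (s := J) (t := V j), ← Finset.sum_add_distrib]
      apply Finset.sum_le_sum
      intro v hv
      have h2 : ∑ j' ∈ J, ∑ v' ∈ V j', volume.real (Av α δ j v ∩ Av α δ j' v') ≤
          ∑ j' ∈ J, (∑ v' ∈ V j', (if v = v' then 0 else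
            volume.real (Av α δ j v ∩ Av α δ j' v')) +
            (if j = j' then volume.real (Av α δ j v) else 0)) := by
        apply Finset.sum_le_sum
        intro j' hj'
        by_cases hjj : j = j'
        · subst hjj
          rw [if_pos rfl]
          have h3 : ∑ v' ∈ V j, volume.real (Av α δ j v ∩ Av α δ j v') =
              ∑ v' ∈ V j, ((if v = v' then 0 else volume.real (Av α δ j v ∩ Av α δ j v')) +
                (if v = v' then volume.real (Av α δ j v) else 0)) := by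
            refine Finset.sum_congr rfl fun v' _ => ?_
            by_cases he : v = v'
            · subst he; simp
            · simp [he]
          rw [h3, Finset.sum_add_distrib]
          gcongr
          rw [Finset.sum_ite_eq]
          split_ifs <;> simp
        · rw [if_neg hjj, add_zero]
          apply Finset.sum_le_sum
          intro v' hv'
          rw [if_neg]
          rintro rfl
          exact hjj (V_inj hv hv')
      refine h2.trans ?_
      rw [Finset.sum_add_distrib, Finset.sum_ite_eq, if_pos hj]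
    refine (Finset.sum_le_sum h1).trans ?_
    rw [Finset.sum_add_distrib]
    have h4 : ∑ j ∈ J, ∑ j' ∈ J, ∑ v ∈ V j, ∑ v' ∈ V j', (if v = v' then 0 else
          volume.real (Av α δ j v ∩ Av α δ j' v')) ≤
        ∑ j ∈ J, ∑ j' ∈ J, 1600 * (j * δ j) * (j' * δ j') :=
      Finset.sum_le_sum fun j hj => Finset.sum_le_sum fun j' hj' => hoff j hj j' hj'
    have h5 : ∑ j ∈ J, ∑ j' ∈ J, 1600 * ((j : ℝ) * δ j) * (j' * δ j') = 1600 * S ^ 2 := by
      rw [← Finset.sum_mul_sum, ← Finset.mul_sum, ← hSdef]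
      ring
    have h6 : ∑ j ∈ J, ∑ v ∈ V j, volume.real (Av α δ j v) ≤ 2 * S := by
      refine (Finset.sum_le_sum hdiag).trans ?_
      rw [← Finset.mul_sum]
    rw [h5] at h4
    linarith
  -- conclusion
  set P : ℝ := volume.real (⋃ x ∈ J.sigma (fun j => V j), Av α δ x.1 x.2) with hP
  have hP0 : 0 ≤ P := measureReal_nonneg
  have h7 : (S / 1200) ^ 2 ≤ P * (1600 * S ^ 2 + 2 * S) := by
    calc (S / 1200) ^ 2 ≤ (∑ x ∈ J.sigma (fun j => V j), volume.real (Av α δ x.1 x.2)) ^ 2 := by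
          have : 0 ≤ S / 1200 := by positivity
          gcongr
      _ ≤ _ := hsm
      _ ≤ _ := by gcongr
  have h8 : 1600 * S ^ 2 + 2 * S ≤ 1602 * S ^ 2 := by nlinarith
  have h9 : (S / 1200) ^ 2 ≤ P * (1602 * S ^ 2) := h7.trans (by gcongr)
  have h10 : S ^ 2 * (1 / 1440000) ≤ S ^ 2 * (P * 1602) := by
    calc S ^ 2 * (1 / 1440000) = (S / 1200) ^ 2 := by ring
      _ ≤ P * (1602 * S ^ 2) := h9
      _ = _ := by ring
  have h11 : (1 : ℝ) / 1440000 ≤ P * 1602 := le_of_mul_le_mul_left h10 (by positivity)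
  linarith

end Pool.Agent.FIB
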