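import Mathlib
import Pool.Agent.FIB.Union
import Pool.Agent.FIB.Diverge

set_option autoImplicit false

/-! FIB (MP_36674f_nt): the limsup set has full measure on the circle. -/

namespace Pool.Agent.FIB

open Finset MeasureTheory Filter Classical

/-- radii -/
noncomputable def dl (φ : ℕ → ℝ) (K : ℝ) (j : ℕ) : ℝ := 1 / (K * (j ^ 2 * φ (Nat.log 2 j)))

/-- the invariant set -/
def W (α : ℝ) (φ : ℕ → ℝ) : Set UnitAddCircle :=
  ⋃ a : ℕ, ⋂ n : ℕ, ⋃ j ∈ {j : ℕ | n ≤ j ∧ good φ j},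
    ⋃ v ∈ {v : ℕ × ℕ | 1 ≤ v.1 ∧ v.1 < 2 ^ (a + j) ∧ 2 ^ j ≤ v.2 ∧ v.2 < 2 ^ (j + 1)},
      Av α (dl φ ((n : ℝ) + 1)) j v

theorem mem_W {α : ℝ} {φ : ℕ → ℝ} {β : UnitAddCircle} : β ∈ W α φ ↔
    ∃ a : ℕ, ∀ n : ℕ, ∃ j : ℕ, n ≤ j ∧ good φ j ∧ ∃ v : ℕ × ℕ,
      1 ≤ v.1 ∧ v.1 < 2 ^ (a + j) ∧ 2 ^ j ≤ v.2 ∧ v.2 < 2 ^ (j + 1) ∧
      β ∈ Av α (dl φ ((n : ℝ) + 1)) j v := by
  unfold W
  simp only [Set.mem_iUnion, Set.mem_iInter, Set.mem_ofPred_eq, exists_prop]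
  constructor
  · rintro ⟨a, ha⟩
    refine ⟨a, fun n => ?_⟩
    obtain ⟨j, ⟨h1, h2⟩, v, ⟨h3, h4, h5, h6⟩, h7⟩ := ha n
    exact ⟨j, h1, h2, v, h3, h4, h5, h6, h7⟩
  · rintro ⟨a, ha⟩
    refine ⟨a, fun n => ?_⟩
    obtain ⟨j, h1, h2, v, h3, h4, h5, h6, h7⟩ := ha n
    exact ⟨j, ⟨h1, h2⟩, v, ⟨h3, h4, h5, h6⟩, h7⟩

theorem measurableSet_W (α : ℝ) (φ : ℕ → ℝ) : MeasurableSet (W α φ) := by
  unfold W
  refine MeasurableSet.iUnion fun a => MeasurableSet.iInter fun n => ?_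
  refine MeasurableSet.biUnion (Set.to_countable _) fun j _ => ?_
  exact MeasurableSet.biUnion (Set.to_countable _) fun v _ => measurableSet_A _ _ _

theorem W_invariant (α : ℝ) {φ : ℕ → ℝ} (hφ : ∀ k, 0 < φ k) :
    W α φ ⊆ (fun γ : UnitAddCircle => 2 • γ) ⁻¹' (W α φ) := by
  intro β hβ
  rw [Set.mem_preimage, mem_W]
  rw [mem_W] at hβ
  obtain ⟨a, ha⟩ := hβ
  refine ⟨a + 1, fun n => ?_⟩
  obtain ⟨j, hj, hg, v, h1, h2, h3, h4, h5⟩ := ha (4 * n + 4)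
  refine ⟨j, by omega, hg, (2 * v.1, v.2), by simp only; omega, ?_, h3, h4, ?_⟩
  · simp only
    rw [show a + 1 + j = (a + j) + 1 by ring, pow_succ]
    omega
  · unfold Av A at h5 ⊢
    simp only [Set.mem_ofPred_eq] at h5 ⊢
    have e : (((2 * v.1 : ℕ) : ℝ) * α : ℝ) = (2 : ℕ) * ((v.1 : ℝ) * α) := by push_cast; ring
    have e2 : (((((2 * v.1 : ℕ) : ℝ) * α : ℝ)) : UnitAddCircle) + v.2 • (2 • β) =
        2 • ((((v.1 : ℝ) * α : ℝ) : UnitAddCircle) + v.2 • β) := by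
      rw [e, ← nsmul_eq_mul, AddCircle.coe_nsmul, smul_add, smul_comm]
    rw [e2]
    have h6 : ‖2 • ((((v.1 : ℝ) * α : ℝ) : UnitAddCircle) + v.2 • β)‖ ≤
        2 * ‖(((v.1 : ℝ) * α : ℝ) : UnitAddCircle) + v.2 • β‖ := by
      have := norm_nsmul_le (n := 2) (a := (((v.1 : ℝ) * α : ℝ) : UnitAddCircle) + v.2 • β)
      simpa using this
    refine h6.trans_lt ?_
    have h7 : 2 * rad (dl φ (((4 * n + 4 : ℕ) : ℝ) + 1)) j v.1 ≤
        rad (dl φ ((n : ℝ) + 1)) j (2 * v.1) := by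
      have hφ0 := hφ (Nat.log 2 j)
      have hj0 : (0 : ℝ) < j := by
        have : 0 < j := by omega
        exact_mod_cast this
      have hv0 : (0 : ℝ) < v.1 := by exact_mod_cast h1
      unfold rad dl
      push_cast
      have e3 : 2 * (1 / ((4 * (n : ℝ) + 4 + 1) * (j ^ 2 * φ (Nat.log 2 j))) / (v.1 * 2 ^ j)) =
          1 / (((4 * (n : ℝ) + 4 + 1) / 4) * (j ^ 2 * φ (Nat.log 2 j))) / (2 * v.1 * 2 ^ j) := by
        field_simp
        ring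
      rw [e3]
      have : (n : ℝ) + 1 ≤ (4 * (n : ℝ) + 4 + 1) / 4 := by linarith
      gcongr
    have h8 := mul_lt_mul_of_pos_left h5 (show (0 : ℝ) < 2 by norm_num)
    exact h8.trans_le h7

/-- the measure of the union beyond `n` -/
theorem tail_lower (α c : ℝ) (hc : 0 < c) (hc1 : c ≤ 1)
    (hα : ∀ u : ℕ, 1 ≤ u → c / (u : ℝ) ^ 2 ≤ nn (u * α))
    {φ : ℕ → ℝ} (hφ : ∀ k, 0 < φ k) (hmono : Monotone φ)
    (hdiv : ¬ Summable (fun k => 1 / φ k)) (n : ℕ) :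
    ∃ J : Finset ℕ, (∀ j ∈ J, n ≤ j ∧ good φ j) ∧
      1 / 2500000000 ≤ volume.real (⋃ x ∈ J.sigma (fun j => V j),
        Av α (dl φ ((n : ℝ) + 1)) x.1 x.2) := by
  -- eventual conditions
  have hdiv100 : Tendsto (fun j : ℕ => j / 100) atTop atTop :=
    Nat.tendsto_div_const_atTop (by norm_num)
  have h2 : ∀ᶠ j : ℕ in atTop, (2 : ℝ) ^ 200 ≤ c * 2 ^ (2 * (j / 100)) := by
    have : Tendsto (fun s : ℕ => c * (2 : ℝ) ^ (2 * s)) atTop atTop := by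
      apply Tendsto.const_mul_atTop hc
      have h4 : Tendsto (fun s : ℕ => (4 : ℝ) ^ s) atTop atTop :=
        tendsto_pow_atTop_atTop_of_one_lt (by norm_num)
      refine h4.congr fun s => ?_
      rw [pow_mul]; norm_num
    exact (this.comp hdiv100).eventually_ge_atTop _
  have h3 : ∀ᶠ j : ℕ in atTop, 64 * (((n : ℝ) + 1) * (j : ℝ) ^ 4) ≤ 2 ^ (j / 100) := by
    have h5 : Tendsto (fun s : ℕ => ((s : ℝ) ^ 4) / (2 : ℝ) ^ s) atTop (nhds 0) :=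
      tendsto_pow_const_div_const_pow_of_one_lt 4 (by norm_num)
    have h6 := (h5.comp hdiv100).eventually_lt_const
      (show (0 : ℝ) < 1 / (64 * ((n : ℝ) + 1) * 200 ^ 4) by positivity)
    filter_upwards [h6, eventually_ge_atTop 100] with j hj hj100
    simp only [Function.comp] at hj
    rw [div_lt_div_iff₀ (by positivity) (by positivity)] at hj
    have h7 : (j : ℝ) ≤ 200 * ((j / 100 : ℕ) : ℝ) := by
      have : j ≤ 200 * (j / 100) := by omega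
      exact_mod_cast this
    calc 64 * (((n : ℝ) + 1) * (j : ℝ) ^ 4)
        ≤ 64 * (((n : ℝ) + 1) * (200 * ((j / 100 : ℕ) : ℝ)) ^ 4) := by gcongr
      _ = ((j / 100 : ℕ) : ℝ) ^ 4 * (64 * ((n : ℝ) + 1) * 200 ^ 4) := by ring
      _ ≤ 1 * 2 ^ (j / 100) := hj.le
      _ = _ := one_mul _
  have h4 : ∀ᶠ j : ℕ in atTop, 4 / φ 0 ≤ (j : ℝ) ^ 2 := by
    have : Tendsto (fun j : ℕ => (j : ℝ) ^ 2) atTop atTop :=
      (tendsto_pow_atTop (by norm_num)).comp tendsto_natCast_atTop_atTop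
    exact this.eventually_ge_atTop _
  obtain ⟨j0, hj0⟩ := eventually_atTop.mp
    (h2.and (h3.and (h4.and (eventually_ge_atTop 100))))
  obtain ⟨J, hJ1, hJ2⟩ := exists_block hφ hdiv ((n : ℝ) + 1) (max n j0)
  refine ⟨J, fun j hj => ⟨le_trans (le_max_left _ _) (hJ1 j hj).1, (hJ1 j hj).2⟩, ?_⟩
  apply union_lower α c hc hc1 hα
  · intro j hj
    obtain ⟨c2, c3, c4, c5⟩ := hj0 j (le_trans (le_max_right _ _) (hJ1 j hj).1)
    have hgood := (hJ1 j hj).2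
    have hφ0 := hφ (Nat.log 2 j)
    have hφ1 : φ 0 ≤ φ (Nat.log 2 j) := hmono (Nat.zero_le _)
    have hjr : (100 : ℝ) ≤ j := by exact_mod_cast c5
    refine ⟨c5, c2, ?_, ?_⟩
    · unfold dl
      rw [div_le_div_iff₀ (by positivity) (by positivity), one_mul]
      refine le_trans ?_ c3
      have h5 : φ (Nat.log 2 j) ≤ (j : ℝ) ^ 2 := by
        refine hgood.trans ?_
        have : Nat.log 2 j + 1 ≤ j := Nat.log_lt_self 2 (by omega)
        have : (Nat.log 2 j : ℝ) + 1 ≤ j := by exact_mod_cast this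
        gcongr
      calc 64 * (((n : ℝ) + 1) * ((j : ℝ) ^ 2 * φ (Nat.log 2 j)))
          ≤ 64 * (((n : ℝ) + 1) * ((j : ℝ) ^ 2 * (j : ℝ) ^ 2)) := by gcongr
        _ = _ := by ring
    · unfold dl
      rw [div_le_div_iff₀ (by positivity) (by norm_num)]
      rw [div_le_iff₀ (hφ 0)] at c4
      have h5 : (4 : ℝ) ≤ (j : ℝ) ^ 2 * φ (Nat.log 2 j) := c4.trans (by gcongr)
      have h6 : (0 : ℝ) ≤ n := Nat.cast_nonneg n
      nlinarith
  · have h5 : ∑ j ∈ J, (j : ℝ) * dl φ ((n : ℝ) + 1) j =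
        (∑ j ∈ J, 1 / ((j : ℝ) * φ (Nat.log 2 j))) / ((n : ℝ) + 1) := by
      rw [Finset.sum_div]
      refine Finset.sum_congr rfl fun j hj => ?_
      have hj1 : 100 ≤ j := (hj0 j (le_trans (le_max_right _ _) (hJ1 j hj).1)).2.2.2
      have hjr : (0 : ℝ) < j := by
        have : 0 < j := by omega
        exact_mod_cast this
      have hφ0 := hφ (Nat.log 2 j)
      unfold dl
      field_simp
    rw [h5, le_div_iff₀ (by positivity), one_mul]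
    exact hJ2

theorem W_pos (α c : ℝ) (hc : 0 < c) (hc1 : c ≤ 1)
    (hα : ∀ u : ℕ, 1 ≤ u → c / (u : ℝ) ^ 2 ≤ nn (u * α))
    {φ : ℕ → ℝ} (hφ : ∀ k, 0 < φ k) (hmono : Monotone φ)
    (hdiv : ¬ Summable (fun k => 1 / φ k)) : volume (W α φ) ≠ 0 := by
  -- decreasing sets
  set U : ℕ → Set UnitAddCircle := fun n => ⋃ j ∈ {j : ℕ | n ≤ j ∧ good φ j},
    ⋃ v ∈ {v : ℕ × ℕ | v ∈ V j}, Av α (dl φ ((n : ℝ) + 1)) j v with hU
  have hmemU : ∀ n β, β ∈ U n ↔ ∃ j, n ≤ j ∧ good φ j ∧ ∃ v ∈ V j,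
      β ∈ Av α (dl φ ((n : ℝ) + 1)) j v := by
    intro n β
    simp only [hU, Set.mem_iUnion, Set.mem_ofPred_eq, exists_prop, and_assoc]
  have hUm : ∀ n, MeasurableSet (U n) := fun n =>
    MeasurableSet.biUnion (Set.to_countable _) fun j _ =>
      MeasurableSet.biUnion (Set.to_countable _) fun v _ => measurableSet_A _ _ _
  have hanti : Antitone U := by
    intro n n' hnn β hβ
    rw [hmemU] at hβ ⊢
    obtain ⟨j, h1, h2, v, hv, h3⟩ := hβ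
    refine ⟨j, hnn.trans h1, h2, v, hv, ?_⟩
    unfold Av A at h3 ⊢
    simp only [Set.mem_ofPred_eq] at h3 ⊢
    refine h3.trans_le ?_
    obtain ⟨v1, -⟩ := mem_V hv
    have hv0 : (0 : ℝ) < v.1 := by exact_mod_cast v1
    have hφ0 := hφ (Nat.log 2 j)
    rcases Nat.eq_zero_or_pos j with h0 | h0
    · subst h0
      unfold rad dl
      simp
    · have hj0 : (0 : ℝ) < j := by exact_mod_cast h0
      unfold rad dl
      have : (n : ℝ) ≤ n' := by exact_mod_cast hnn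
      gcongr
  have hlow : ∀ n, ENNReal.ofReal (1 / 2500000000) ≤ volume (U n) := by
    intro n
    obtain ⟨J, hJ, hJ2⟩ := tail_lower α c hc hc1 hα hφ hmono hdiv n
    have h1 : (⋃ x ∈ J.sigma (fun j => V j), Av α (dl φ ((n : ℝ) + 1)) x.1 x.2) ⊆ U n := by
      intro β hβ
      simp only [Set.mem_iUnion, exists_prop] at hβ
      obtain ⟨x, hx, hβ⟩ := hβ
      rw [mem_sigma] at hx
      rw [hmemU]
      exact ⟨x.1, (hJ x.1 hx.1).1, (hJ x.1 hx.1).2, x.2, hx.2, hβ⟩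
    refine le_trans ?_ (measure_mono h1)
    rw [ENNReal.ofReal_le_iff_le_toReal (measure_ne_top _ _)]
    exact hJ2
  have hinter : ENNReal.ofReal (1 / 2500000000) ≤ volume (⋂ n, U n) := by
    rw [hanti.measure_iInter (fun n => (hUm n).nullMeasurableSet) ⟨0, measure_ne_top _ _⟩]
    exact le_iInf hlow
  have hsub : (⋂ n, U n) ⊆ W α φ := by
    intro β hβ
    rw [Set.mem_iInter] at hβ
    rw [mem_W]
    refine ⟨0, fun n => ?_⟩
    obtain ⟨j, h1, h2, v, hv, h3⟩ := (hmemU n β).mp (hβ n)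
    obtain ⟨v1, v2, v3, v4, -⟩ := mem_V hv
    refine ⟨j, h1, h2, v, v1, ?_, v3, v4, h3⟩
    rw [zero_add]
    exact lt_of_lt_of_le v2 (Nat.pow_le_pow_right (by norm_num) (Nat.div_le_self _ _))
  have h5 := hinter.trans (measure_mono hsub)
  intro h0
  rw [h0] at h5
  have : (0 : ENNReal) < ENNReal.ofReal (1 / 2500000000) := by
    rw [ENNReal.ofReal_pos]; norm_num
  exact absurd h5 (not_le.mpr this)

theorem W_ae (α c : ℝ) (hc : 0 < c) (hc1 : c ≤ 1)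
    (hα : ∀ u : ℕ, 1 ≤ u → c / (u : ℝ) ^ 2 ≤ nn (u * α))
    {φ : ℕ → ℝ} (hφ : ∀ k, 0 < φ k) (hmono : Monotone φ)
    (hdiv : ¬ Summable (fun k => 1 / φ k)) : ∀ᵐ β : UnitAddCircle, β ∈ W α φ := by
  have herg : Ergodic (fun γ : UnitAddCircle => 2 • γ) volume :=
    AddCircle.ergodic_nsmul (T := (1 : ℝ)) (by norm_num)
  have h := herg.ae_empty_or_univ_of_ae_le_preimage
    (measurableSet_W α φ).nullMeasurableSet
    (LE.le.eventuallyLE (W_invariant α hφ))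
  rcases h with h | h
  · exfalso
    exact W_pos α c hc hc1 hα hφ hmono hdiv (by rw [measure_congr h]; simp)
  · filter_upwards [h] with β hβ
    have : (W α φ β) = (Set.univ β) := hβ
    exact (eq_iff_iff.mp this).mpr trivial

end Pool.Agent.FIB
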