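import Mathlib
import Pool.Agent.FIB.Limsup
import Pool.Agent.FIB.Disc

set_option autoImplicit false

/-! FIB (MP_36674f_nt): every vertical fibre. -/

namespace Pool.Agent.FIB

open Finset MeasureTheory Filter Classical

theorem ae_real {p : UnitAddCircle → Prop} (h : ∀ᵐ x : UnitAddCircle, p x) :
    ∀ᵐ β : ℝ, p (β : UnitAddCircle) := by
  have h1 : ∀ n : ℤ, ∀ᵐ β : ℝ ∂(volume.restrict (Set.Ioc (n : ℝ) (n + 1))),
      p (β : UnitAddCircle) :=
    fun n => (UnitAddCircle.measurePreserving_mk (n : ℝ)).quasiMeasurePreserving.ae h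
  have h2 : ∀ᵐ β : ℝ ∂(volume.restrict (⋃ n : ℤ, Set.Ioc (n : ℝ) (n + 1))),
      p (β : UnitAddCircle) := by
    rw [ae_restrict_iUnion_iff]
    exact h1
  rwa [iUnion_Ioc_intCast, Measure.restrict_univ] at h2

theorem floor_loglog_le : ∀ᶠ j : ℕ in atTop, ⌊Real.log (4 * j)⌋₊ ≤ Nat.log 2 j := by
  have h1 : ∀ᶠ j : ℕ in atTop, (4 : ℝ) ≤ Real.log j :=
    (Real.tendsto_log_atTop.comp tendsto_natCast_atTop_atTop).eventually_ge_atTop 4
  filter_upwards [h1, eventually_ge_atTop 1] with j hj hj1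
  have hj0 : (0 : ℝ) < j := by exact_mod_cast hj1
  have hlog2 : Real.log 2 ≤ 0.7 := by have := Real.log_two_lt_d9; linarith
  have hlog20 : 0 ≤ Real.log 2 := Real.log_nonneg (by norm_num)
  have e4 : Real.log (4 * j) = 2 * Real.log 2 + Real.log j := by
    rw [Real.log_mul (by norm_num) hj0.ne', show (4 : ℝ) = 2 ^ 2 by norm_num, Real.log_pow]
    norm_num
  have h0 : 0 ≤ Real.log (4 * j) := by rw [e4]; linarith
  rw [Nat.le_log_iff_pow_le (by norm_num) (by omega)]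
  have hk : ((⌊Real.log (4 * j)⌋₊ : ℕ) : ℝ) ≤ Real.log (4 * j) := Nat.floor_le h0
  have h2 : (2 : ℝ) ^ ⌊Real.log (4 * j)⌋₊ ≤ j := by
    rw [← Real.log_le_log_iff (by positivity) hj0, Real.log_pow]
    calc (⌊Real.log (4 * j)⌋₊ : ℝ) * Real.log 2 ≤ Real.log (4 * j) * 0.7 := by gcongr
      _ ≤ Real.log j := by rw [e4]; linarith
  exact_mod_cast h2

/-- the assertion about one pair -/
def Bad (φ : ℕ → ℝ) (α β : ℝ) : Prop :=
  ∀ C : ℝ, ∃ᶠ N : ℕ in atTop, ∃ a b : ℝ, 0 ≤ a ∧ a ≤ 1 ∧ 0 ≤ b ∧ b ≤ 1 ∧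
    C * Real.log N ^ 2 * φ ⌊Real.log (Real.log N)⌋₊ <
      |(boxCount α β N a b : ℝ) - N * (a * b)|

theorem bad_of_mem_W {φ : ℕ → ℝ} (hφ : ∀ k, 0 < φ k) (hmono : Monotone φ) (α β : ℝ)
    (hβ : (β : UnitAddCircle) ∈ W α φ) : Bad φ α β := by
  intro C
  rw [mem_W] at hβ
  obtain ⟨a, ha⟩ := hβ
  rw [frequently_atTop]
  intro N0
  -- eventual conditions on j
  have E1 : ∀ᶠ j : ℕ in atTop, 16 * ((N0 : ℝ) + 3) ≤ 2 ^ j * φ 0 := by
    have : Tendsto (fun j : ℕ => (2 : ℝ) ^ j * φ 0) atTop atTop :=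
      (tendsto_pow_atTop_atTop_of_one_lt (by norm_num)).atTop_mul_const (hφ 0)
    exact this.eventually_ge_atTop _
  have E2 : ∀ᶠ j : ℕ in atTop, (2 : ℝ) ^ (a + 1) * (j : ℝ) ^ 5 ≤ Real.exp (2 * j) := by
    have h5 : Tendsto (fun x : ℝ => x ^ 5 * Real.exp (-x)) atTop (nhds 0) :=
      Real.tendsto_pow_mul_exp_neg_atTop_nhds_zero 5
    have h6 := (h5.comp tendsto_natCast_atTop_atTop).eventually_lt_const
      (show (0 : ℝ) < 1 / 2 ^ (a + 1) by positivity)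
    filter_upwards [h6] with j hj
    simp only [Function.comp] at hj
    rw [lt_div_iff₀ (by positivity), Real.exp_neg] at hj
    have hexp : (0 : ℝ) < Real.exp j := Real.exp_pos _
    have h7 : (j : ℝ) ^ 5 * 2 ^ (a + 1) ≤ Real.exp j := by
      have := mul_lt_mul_of_pos_right hj hexp
      rw [one_mul] at this
      calc (j : ℝ) ^ 5 * 2 ^ (a + 1)
          = (j : ℝ) ^ 5 * (Real.exp j)⁻¹ * 2 ^ (a + 1) * Real.exp j := by field_simp
        _ ≤ _ := this.le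
    have h8 : Real.exp (j : ℝ) ≤ Real.exp (2 * j) := by
      apply Real.exp_le_exp.mpr
      have : (0 : ℝ) ≤ j := Nat.cast_nonneg j
      linarith
    linarith
  obtain ⟨j0, hj0⟩ := eventually_atTop.mp
    (E1.and (E2.and (floor_loglog_le.and (eventually_ge_atTop 1))))
  obtain ⟨n0, hn0⟩ := exists_nat_gt (16384 * |C|)
  set n := max n0 j0 with hn
  obtain ⟨j, hjn, hg, v, v1, v2, v3, v4, hv⟩ := ha n
  obtain ⟨m, h⟩ := v
  simp only at v1 v2 v3 v4 hv
  obtain ⟨e1, e2, e3, e4⟩ := hj0 j (le_trans (le_max_right _ _) hjn)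
  have hjr : (1 : ℝ) ≤ j := by exact_mod_cast e4
  have hmr : (1 : ℝ) ≤ m := by exact_mod_cast v1
  have hhr : (2 : ℝ) ^ j ≤ h := by exact_mod_cast v3
  have hhr2 : (h : ℝ) ≤ 2 * 2 ^ j := by
    rw [← pow_succ']; exact_mod_cast v4.le
  have h2j : (1 : ℝ) ≤ 2 ^ j := one_le_pow₀ (by norm_num)
  have hh1 : (1 : ℝ) ≤ h := h2j.trans hhr
  have hφ0 := hφ (Nat.log 2 j)
  have hφ1 : φ 0 ≤ φ (Nat.log 2 j) := hmono (Nat.zero_le _)
  have hφ00 : 0 < φ 0 := hφ 0
  set F := φ (Nat.log 2 j) with hF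
  set K : ℝ := (n : ℝ) + 1 with hK
  have hK1 : 1 ≤ K := by rw [hK]; have : (0 : ℝ) ≤ n := Nat.cast_nonneg n; linarith
  set X : ℝ := K / 8 * (m * h) * ((j : ℝ) ^ 2 * F) with hX
  have hX0 : 0 < X := by positivity
  have hθ : nn (m * α + h * β) < 1 / (K * ((j : ℝ) ^ 2 * F)) / (m * 2 ^ j) := by
    unfold Av at hv
    rw [mem_A_coe] at hv
    exact hv
  have hXlow : 2 * ((N0 : ℝ) + 3) ≤ X := by
    calc 2 * ((N0 : ℝ) + 3) = (16 * ((N0 : ℝ) + 3)) / 8 := by ring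
      _ ≤ (2 ^ j * φ 0) / 8 := by gcongr
      _ = 1 / 8 * (1 * 2 ^ j) * (1 ^ 2 * φ 0) := by ring
      _ ≤ K / 8 * (m * h) * ((j : ℝ) ^ 2 * F) := by gcongr
  set N := ⌊X⌋₊ with hN
  have hNX : (N : ℝ) ≤ X := Nat.floor_le hX0.le
  have hXN : X < N + 1 := Nat.lt_floor_add_one X
  have hN0r : (0 : ℝ) ≤ N0 := Nat.cast_nonneg N0
  have hN3 : (3 : ℝ) ≤ N := by linarith
  refine ⟨N, ?_, ?_⟩
  · have : (N0 : ℝ) ≤ N := by linarith
    exact_mod_cast this
  · have hNθ : N * nn (m * α + h * β) ≤ 1 / 4 := by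
      calc N * nn (m * α + h * β) ≤ X * (1 / (K * ((j : ℝ) ^ 2 * F)) / (m * 2 ^ j)) :=
            mul_le_mul hNX hθ.le (nn_nonneg _) hX0.le
        _ = h / (8 * 2 ^ j) := by rw [hX]; field_simp
        _ ≤ 1 / 4 := by
            rw [div_le_div_iff₀ (by positivity) (by norm_num)]
            linarith
    obtain ⟨a', b', c1, c2, c3, c4, c5⟩ := disc_two α β m h N v1 (by
      have : 0 < h := lt_of_lt_of_le (by positivity) v3
      exact this) hNθ
    refine ⟨a', b', c1, c2, c3, c4, lt_of_lt_of_le ?_ c5⟩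
    -- lower bound
    have hlow : K / 1024 * ((j : ℝ) ^ 2 * F) ≤ (N : ℝ) / (64 * (m * h)) := by
      rw [le_div_iff₀ (by positivity)]
      calc K / 1024 * ((j : ℝ) ^ 2 * F) * (64 * (m * h)) = X / 2 := by rw [hX]; ring
        _ ≤ N := by linarith
    refine lt_of_lt_of_le ?_ hlow
    -- log bounds
    have hlogX : Real.log X ≤ 4 * j := by
      rw [Real.log_le_iff_le_exp hX0]
      have hKj : K ≤ 2 * j := by
        rw [hK]
        have : (n : ℝ) ≤ j := by exact_mod_cast hjn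
        linarith
      have hFj : F ≤ (j : ℝ) ^ 2 := by
        refine hg.trans ?_
        have : Nat.log 2 j + 1 ≤ j := Nat.log_lt_self 2 (by omega)
        have : (Nat.log 2 j : ℝ) + 1 ≤ j := by exact_mod_cast this
        gcongr
      have hmr2 : (m : ℝ) ≤ 2 ^ a * 2 ^ j := by
        rw [← pow_add]; exact_mod_cast v2.le
      have h2e : (2 : ℝ) ^ j * 2 ^ j ≤ Real.exp (2 * j) := by
        have : (2 : ℝ) ≤ Real.exp 1 := by
          have := Real.add_one_le_exp (1 : ℝ); linarith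
        calc (2 : ℝ) ^ j * 2 ^ j ≤ Real.exp 1 ^ j * Real.exp 1 ^ j := by gcongr
          _ = Real.exp (2 * j) := by
              rw [← Real.exp_nat_mul, ← Real.exp_add]; congr 1; ring
      calc X ≤ (2 * j) / 8 * ((2 ^ a * 2 ^ j) * (2 * 2 ^ j)) * ((j : ℝ) ^ 2 * (j : ℝ) ^ 2) := by
            rw [hX]; gcongr
        _ = (1 / 4) * (2 ^ (a + 1) * (j : ℝ) ^ 5) * (2 ^ j * 2 ^ j) := by ring
        _ ≤ 1 * Real.exp (2 * j) * Real.exp (2 * j) := by gcongr; norm_num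
        _ = Real.exp (4 * j) := by rw [one_mul, ← Real.exp_add]; congr 1; ring
    have hlogN : Real.log N ≤ 4 * j :=
      (Real.log_le_log (by linarith) hNX).trans hlogX
    have hlogN1 : 1 ≤ Real.log N := by
      rw [Real.le_log_iff_exp_le (by linarith)]
      have := Real.exp_one_lt_d9
      linarith
    have hll : ⌊Real.log (Real.log N)⌋₊ ≤ Nat.log 2 j := by
      refine le_trans (Nat.floor_le_floor ?_) e3
      exact Real.log_le_log (by linarith) hlogN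
    have hφll : φ ⌊Real.log (Real.log N)⌋₊ ≤ F := hmono hll
    have hφll0 := hφ ⌊Real.log (Real.log N)⌋₊
    have hKC : 16384 * |C| < K := by
      rw [hK]
      have : (n0 : ℝ) ≤ n := by exact_mod_cast le_max_left n0 j0
      linarith
    calc C * Real.log N ^ 2 * φ ⌊Real.log (Real.log N)⌋₊
        ≤ |C| * Real.log N ^ 2 * φ ⌊Real.log (Real.log N)⌋₊ := by
          gcongr; exact le_abs_self C
      _ ≤ |C| * (4 * j) ^ 2 * F := by gcongr
      _ = (16384 * |C|) / 1024 * ((j : ℝ) ^ 2 * F) := by ring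
      _ < K / 1024 * ((j : ℝ) ^ 2 * F) := by
          have : 0 < (j : ℝ) ^ 2 * F := by positivity
          gcongr

theorem bad_of_liouville {φ : ℕ → ℝ} (hφ : ∀ k, 0 < φ k) (hexp : ∀ k : ℕ, φ k ≤ Real.exp k)
    (α β : ℝ) (hα : ∀ c : ℝ, 0 < c → c ≤ 1 → ∃ u : ℕ, 1 ≤ u ∧ nn (u * α) < c / (u : ℝ) ^ 2) :
    Bad φ α β := by
  intro C
  rw [frequently_atTop]
  intro N0
  -- u large
  have E : ∀ᶠ u : ℕ in atTop, |C| * Real.log (2 * (u : ℝ) ^ 2) ^ 3 < u / 4 := by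
    have h1 : Tendsto (fun x : ℝ => Real.log x ^ 3 / x ^ (1 / 2 : ℝ)) atTop (nhds 0) := by
      have := isLittleO_log_rpow_rpow_atTop (s := (1 / 2 : ℝ)) 3 (by norm_num)
      have h2 := this.tendsto_div_nhds_zero
      refine h2.congr fun x => ?_
      norm_cast
    have h2 : Tendsto (fun u : ℕ => 2 * (u : ℝ) ^ 2) atTop atTop :=
      ((tendsto_pow_atTop (by norm_num)).comp tendsto_natCast_atTop_atTop).const_mul_atTop
        (by norm_num)
    have h3 := (h1.comp h2).eventually_lt_const (show (0 : ℝ) < 1 / (8 * (|C| + 1)) by positivity)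
    filter_upwards [h3, eventually_ge_atTop 1] with u hu hu1
    simp only [Function.comp] at hu
    have hur : (1 : ℝ) ≤ u := by exact_mod_cast hu1
    have hs : (2 * (u : ℝ) ^ 2) ^ (1 / 2 : ℝ) ≤ 2 * u := by
      rw [← Real.sqrt_eq_rpow]
      rw [Real.sqrt_le_left (by positivity)]
      nlinarith
    have hs0 : 0 < (2 * (u : ℝ) ^ 2) ^ (1 / 2 : ℝ) := by positivity
    rw [div_lt_div_iff₀ hs0 (by positivity), one_mul] at hu
    have hl : 0 ≤ Real.log (2 * (u : ℝ) ^ 2) ^ 3 := by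
      apply pow_nonneg
      apply Real.log_nonneg
      nlinarith
    nlinarith [abs_nonneg C]
  obtain ⟨u1, hu1⟩ := eventually_atTop.mp E
  set U : ℕ := max (max N0 u1) 3 with hU
  have hU3 : 3 ≤ U := le_max_right _ _
  have hUr : (3 : ℝ) ≤ U := by exact_mod_cast hU3
  obtain ⟨u0, hu0, hu0'⟩ := hα (1 / (8 * (U : ℝ) ^ 3)) (by positivity) (by
    rw [div_le_one (by positivity)]
    have : (1 : ℝ) ≤ (U : ℝ) ^ 3 := one_le_pow₀ (by linarith)
    linarith)
  have hu0r : (1 : ℝ) ≤ u0 := by exact_mod_cast hu0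
  set u := U * u0 with hu
  have hUu : U ≤ u := Nat.le_mul_of_pos_right _ hu0
  have hur : (3 : ℝ) ≤ u := hUr.trans (by exact_mod_cast hUu)
  have hnn : nn (u * α) < 1 / (8 * (u : ℝ) ^ 2) := by
    rw [hu]
    push_cast
    rw [mul_assoc]
    refine (nn_nat_mul U _).trans_lt ?_
    calc (U : ℝ) * nn (u0 * α) < U * (1 / (8 * (U : ℝ) ^ 3) / (u0 : ℝ) ^ 2) := by gcongr
      _ = 1 / (8 * (U * u0 : ℝ) ^ 2) := by field_simp
  have hNn : ((2 * u ^ 2 : ℕ) : ℝ) * nn (u * α) ≤ 1 / 4 := by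
    push_cast
    calc 2 * (u : ℝ) ^ 2 * nn (u * α) ≤ 2 * (u : ℝ) ^ 2 * (1 / (8 * (u : ℝ) ^ 2)) := by gcongr
      _ = 1 / 4 := by field_simp; norm_num
  obtain ⟨a', b', c1, c2, c3, c4, c5⟩ := disc_one α β u (2 * u ^ 2) (by omega) hNn
  refine ⟨2 * u ^ 2, ?_, a', b', c1, c2, c3, c4, lt_of_lt_of_le ?_ c5⟩
  · have : N0 ≤ u := le_trans (le_trans (le_max_left _ _) (le_max_left _ _)) hUu
    nlinarith
  · have hb := hu1 u (le_trans (le_trans (le_max_right _ _) (le_max_left _ _)) hUu)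
    have e : ((2 * u ^ 2 : ℕ) : ℝ) / (8 * u) = u / 4 := by
      push_cast; field_simp; norm_num
    rw [e]
    refine lt_of_le_of_lt ?_ hb
    push_cast
    set L := Real.log (2 * (u : ℝ) ^ 2) with hL
    have hL1 : 1 ≤ L := by
      rw [hL, Real.le_log_iff_exp_le (by positivity)]
      have := Real.exp_one_lt_d9
      nlinarith
    have hφL : φ ⌊Real.log L⌋₊ ≤ L := by
      refine (hexp _).trans ?_
      have h0 : 0 ≤ Real.log L := Real.log_nonneg hL1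
      calc Real.exp (⌊Real.log L⌋₊ : ℝ) ≤ Real.exp (Real.log L) :=
            Real.exp_le_exp.mpr (Nat.floor_le h0)
        _ = L := Real.exp_log (by linarith)
    have hφ0 := hφ ⌊Real.log L⌋₊
    calc C * L ^ 2 * φ ⌊Real.log L⌋₊ ≤ |C| * L ^ 2 * L := by
          gcongr
          exact le_abs_self C
      _ = |C| * L ^ 3 := by ring

/-- **Every fibre.** -/
theorem fib_main (φ : ℕ → ℝ) (hφ : ∀ k, 0 < φ k) (hmono : Monotone φ)
    (hexp : ∀ k : ℕ, φ k ≤ Real.exp k) (hdiv : ¬ Summable (fun k => 1 / φ k)) (α : ℝ) :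
    ∀ᵐ β : ℝ, Bad φ α β := by
  by_cases h : ∃ c : ℝ, 0 < c ∧ c ≤ 1 ∧ ∀ u : ℕ, 1 ≤ u → c / (u : ℝ) ^ 2 ≤ nn (u * α)
  · obtain ⟨c, hc, hc1, hα⟩ := h
    filter_upwards [ae_real (W_ae α c hc hc1 hα hφ hmono hdiv)] with β hβ
    exact bad_of_mem_W hφ hmono α β hβ
  · push Not at h
    exact Filter.Eventually.of_forall fun β => bad_of_liouville hφ hexp α β h

end Pool.Agent.FIB
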